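import Pool.Agent.Helper10.SE.Defs8

/-!
# Project SE: block CERT
-/

universe u

namespace Pool.Agent.SE

/-- **Block CERT**: finitely many conditions such that one of them holds in each valuation ring. -/
theorem cert : StmtCert.{u} := by
  intro κ L _ _ _ n y hy hO c
  let φ : MvPolynomial (Fin n) κ →+* L :=
    (MvPolynomial.aeval fun i => (y i (c i))⁻¹ : MvPolynomial (Fin n) κ →ₐ[κ] L).toRingHom
  let K : Ideal (MvPolynomial (Fin n) κ) :=
    RingHom.ker (MvPolynomial.constantCoeff : MvPolynomial (Fin n) κ →+* κ)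
  by_cases h : K.map φ.rangeRestrict = ⊤
  · have h1 : (1 : φ.range) ∈ K.map φ.rangeRestrict := by
      rw [h]
      exact Submodule.mem_top
    obtain ⟨Q, hQ, hQ1⟩ :=
      (Ideal.mem_map_iff_of_surjective _ φ.rangeRestrict_surjective).1 h1
    exact ⟨Q, hQ, congrArg Subtype.val hQ1⟩
  · exfalso
    obtain ⟨V, hV1, hV2⟩ := Ideal.image_subset_nonunits_valuationSubring _ h
    obtain ⟨i, hi⟩ := hO V fun a => by
      have h1 : φ (MvPolynomial.C a) = algebraMap κ L a := MvPolynomial.aeval_C _ a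
      rw [← h1]
      exact hV1 ⟨MvPolynomial.C a, rfl⟩
    have h2 : (y i (c i))⁻¹ ∈ V.nonunits := by
      have h3 : φ (MvPolynomial.X i) = (y i (c i))⁻¹ := MvPolynomial.aeval_X _ i
      refine hV2 ⟨φ.rangeRestrict (MvPolynomial.X i), Ideal.mem_map_of_mem _ ?_, h3⟩
      change MvPolynomial.constantCoeff (MvPolynomial.X i) = 0
      exact MvPolynomial.constantCoeff_X κ i
    rcases V.inv_mem_nonunits_iff.1 h2 with h4 | h4
    · exact hy _ _ h4
    · exact h4 (hi (c i))

end Pool.Agent.SE
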