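import Pool.Agent.Helper10.SE.Defs8

/-!
# Project SE, block LC: local coordinates at a place
-/

universe u

set_option linter.unusedSectionVars false

namespace Pool.Agent.SE

open VC Polynomial Pool.Agent.TW Pool.Agent.TWU IsDedekindDomain

section unram

variable {k F : Type u} [Field k] [CharZero k] [Field F] [Algebra k F] [Algebra k[X] F]
  [IsScalarTower k k[X] F]
  (B : Type u) [CommRing B] [Algebra k[X] B] [Algebra B F] [IsScalarTower k[X] B F]
  [IsIntegralClosure B k[X] F] [IsDedekindDomain B] [IsFractionRing B F] [FaithfulSMul k[X] B]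
  [Module.Finite k[X] B]

/-- The integral closure is unramified over `k[X]` at the center of a place at which `X` is a
uniformizer. -/
private theorem unram34 (P : Place k F) (hP : OverZero P)
    (hu : ∀ z ∈ P.ring.nonunits, z / algebraMap k[X] F X ∈ P.ring) :
    Algebra.IsUnramifiedAt k[X] (center B P hP) := by
  let p : Ideal k[X] := Ideal.span {X}
  have hp : p.IsMaximal := inferInstanceAs (Ideal.span {(X : k[X])}).IsMaximal
  have hlo : (center B P hP).LiesOver p := center_liesOver B P hP
  let := Localization.AtPrime.algebraOfLiesOver p (center B P hP)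
  have hX0 : algebraMap k[X] F X ≠ 0 := by
    rw [IsScalarTower.algebraMap_apply k[X] B F]
    intro h
    have h1 : algebraMap k[X] B X = 0 := IsFractionRing.injective B F (by rw [h, map_zero])
    exact Polynomial.X_ne_zero (FaithfulSMul.algebraMap_injective k[X] B (by rw [h1, map_zero]))
  rw [Algebra.isUnramifiedAt_iff_map_eq k[X] p (center B P hP)]
  constructor
  · have : Algebra.IsIntegral k[X] B := inferInstance
    have hc : CharZero p.ResidueField :=
      charZero_of_injective_algebraMap
        (((algebraMap k[X] p.ResidueField).comp (C : k →+* k[X])).injective :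
          Function.Injective ((algebraMap k[X] p.ResidueField).comp (C : k →+* k[X])))
    infer_instance
  · apply le_antisymm
    · rw [Ideal.map_span, Set.image_singleton, Ideal.span_singleton_le_iff_mem,
        IsScalarTower.algebraMap_apply k[X] B, ← Localization.AtPrime.map_eq_maximalIdeal]
      exact Ideal.mem_map_of_mem _ (X_mem_center B P hP)
    · rw [← Localization.AtPrime.map_eq_maximalIdeal, Ideal.map_le_iff_le_comap]
      intro b hb
      rw [Ideal.mem_comap, Ideal.map_span, Set.image_singleton, Ideal.mem_span_singleton]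
      have h1 := hu _ ((mem_center B P hP b).1 hb)
      have h2 : (hos B P hP).valuation F (algebraMap B F b / algebraMap k[X] F X) ≤ 1 := by
        rw [← valuationSubring_hos B P hP] at h1
        exact h1
      obtain ⟨a, s, has⟩ := HeightOneSpectrum.exists_primeCompl_mul_eq_of_integer
        (hos B P hP) _ h2
      have h3 : b * s = algebraMap k[X] B X * a := by
        apply IsFractionRing.injective B F
        rw [map_mul, map_mul, ← has, ← IsScalarTower.algebraMap_apply k[X] B F]
        field_simp
      have hs : IsUnit (algebraMap B (Localization.AtPrime (center B P hP)) s) :=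
        IsLocalization.map_units (M := (center B P hP).primeCompl) _ ⟨s, s.2⟩
      rw [← hs.dvd_mul_right, ← map_mul, h3, map_mul, ← IsScalarTower.algebraMap_apply]
      exact Dvd.intro _ rfl

/-- Local coordinates at a place at which the integral closure is unramified. -/
private theorem coord34 (P : Place k F) (hP : OverZero P)
    (hunr : Algebra.IsUnramifiedAt k[X] (center B P hP)) :
    ∃ (z₀ : F) (Φ : k[X][X]), Φ.Monic ∧ Irreducible Φ ∧ aeval z₀ Φ = 0 ∧
      aeval z₀ (derivative Φ) ∉ P.ring.nonunits ∧
      ∀ b : B, ∃ p q : k[X][X], aeval z₀ q ≠ 0 ∧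
        algebraMap B F b * aeval z₀ q = aeval z₀ p := by
  have hinj : Function.Injective (algebraMap k[X] F) := by
    rw [IsScalarTower.algebraMap_eq k[X] B F]
    exact (IsFractionRing.injective B F).comp (FaithfulSMul.algebraMap_injective k[X] B)
  have hff : FaithfulSMul k[X] F := (faithfulSMul_iff_algebraMap_injective _ _).2 hinj
  obtain ⟨f, hf, E, φ, hφ⟩ :=
    Algebra.IsUnramifiedAt.exists_hasStandardEtaleSurjectionOn (R := k[X]) (center B P hP)
  have hfn : algebraMap B F f ∉ P.ring.nonunits := fun h => hf ((mem_center B P hP f).2 h)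
  rw [ValuationSubring.mem_nonunits_iff_or, not_or, not_not] at hfn
  obtain ⟨hf0, hfinv⟩ := hfn
  have hunit : ∀ y : Submonoid.powers f, IsUnit (IsScalarTower.toAlgHom k[X] B F y) := by
    rintro ⟨_, n, rfl⟩
    rw [IsScalarTower.coe_toAlgHom', map_pow]
    exact (isUnit_iff_ne_zero.2 hf0).pow n
  let ψ : Localization.Away f →ₐ[k[X]] F :=
    IsLocalization.liftAlgHom (M := Submonoid.powers f) (f := IsScalarTower.toAlgHom k[X] B F) hunit
  have hψ : ∀ b : B, ψ (algebraMap B _ b) = algebraMap B F b := fun b => by
    rw [IsLocalization.liftAlgHom_apply, IsLocalization.lift_eq]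
    rfl
  have hψm : ∀ y, ψ y ∈ P.ring := by
    intro y
    obtain ⟨b, ⟨_, n, rfl⟩, hb⟩ := IsLocalization.exists_mk'_eq (Submonoid.powers f) y
    have h1 : ψ y * algebraMap B F f ^ n = algebraMap B F b := by
      have h2 : y * algebraMap B _ (f ^ n) = algebraMap B _ b := by
        rw [← hb]
        exact IsLocalization.mk'_spec (Localization.Away f) b
          (⟨f ^ n, n, rfl⟩ : Submonoid.powers f)
      have h3 := congrArg ψ h2
      rwa [map_mul, hψ, hψ, map_pow] at h3
    have h2 : ψ y = algebraMap B F b * (algebraMap B F f)⁻¹ ^ n := by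
      rw [← h1, inv_pow, mul_inv_cancel_right₀ (pow_ne_zero n hf0)]
    rw [h2]
    exact P.ring.mul_mem _ _ (algebraMap_mem_ring B P hP b) (pow_mem hfinv n)
  let χ : E.Ring →ₐ[k[X]] F := ψ.comp φ
  have hχm : ∀ y, χ y ∈ P.ring := fun y => hψm _
  set z₀ : F := χ E.X with hz₀
  have hmap : E.HasMap z₀ := StandardEtalePair.hasMap_X.map χ
  have hint : IsIntegral k[X] z₀ := ⟨E.f, E.monic_f, hmap.1⟩
  have hdvd : minpoly k[X] z₀ ∣ E.f := minpoly.isIntegrallyClosed_dvd hint hmap.1
  refine ⟨z₀, minpoly k[X] z₀, minpoly.monic hint, minpoly.irreducible hint, minpoly.aeval _ _,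
    ?_, ?_⟩
  · intro hn
    obtain ⟨g, hg⟩ := hdvd
    obtain ⟨v, hv⟩ := (StandardEtalePair.hasMap_X (P := E)).isUnit_derivative_f.exists_right_inv
    have h1 : aeval z₀ (derivative E.f) * χ v = 1 := by
      rw [hz₀, aeval_algHom_apply, ← map_mul, hv, map_one]
    have h2 : aeval z₀ (derivative E.f) = aeval z₀ (derivative (minpoly k[X] z₀)) * aeval z₀ g := by
      rw [hg, derivative_mul, map_add, map_mul, map_mul, minpoly.aeval, zero_mul, add_zero]
    have h3 : aeval z₀ g ∈ P.ring := by
      rw [hz₀, aeval_algHom_apply]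
      exact hχm _
    rw [ValuationSubring.mem_nonunits_iff] at hn
    have h4 : P.ring.valuation (aeval z₀ (derivative E.f) * χ v) < 1 := by
      rw [h2, mul_assoc, map_mul]
      exact lt_of_le_of_lt (mul_le_of_le_one_right' ((P.ring.valuation_le_one_iff _).2
        (P.ring.mul_mem _ _ h3 (hχm v)))) hn
    rw [h1, map_one] at h4
    exact lt_irrefl _ h4
  · intro b
    let E' : StandardEtalePresentation k[X] E.Ring :=
      { P := E
        x := E.X
        hasMap := StandardEtalePair.hasMap_X
        lift_bijective := by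
          rw [StandardEtalePair.lift_X_left]
          exact Function.bijective_id }
    obtain ⟨s, hs⟩ := hφ (algebraMap B _ b)
    obtain ⟨p, n, hpn⟩ := E'.exists_mul_aeval_x_g_pow_eq_aeval_x s
    refine ⟨p, E.g ^ n, ?_, ?_⟩
    · rw [map_pow]
      exact pow_ne_zero n hmap.2.ne_zero
    · have h1 := congrArg χ hpn
      have h2 : χ s = algebraMap B F b := by
        change ψ (φ s) = _
        rw [hs, hψ]
      rw [map_mul, h2, map_pow, ← aeval_algHom_apply, ← aeval_algHom_apply] at h1
      rw [map_pow]
      exact h1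

end unram

/-- **Block LC.** -/
theorem lc : StmtLC := by
  intro κ L _ _ _ _ hF P₀
  obtain ⟨x, hx0, hx1⟩ := exists_unif hF P₀
  have ht : x ∈ P₀.ring.nonunits := (nonunit_iff_ord hF P₀ hx0).2 (by rw [hx1]; exact one_pos)
  have htr : Transcendental κ x := transc_of_nonunit P₀ hx0 ht
  have hfin := hF.finiteDimensional htr
  let i1 : Algebra κ[X] L := polyAlg x
  let i3 : Algebra (RatFunc κ) L := ratAlg x htr
  have s1 : IsScalarTower κ κ[X] L := IsScalarTower.of_algebraMap_eq (fun y =>
    (aeval x : κ[X] →ₐ[κ] L).commutes y |>.symm)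
  have s3 : IsScalarTower κ[X] (RatFunc κ) L := IsScalarTower.of_algebraMap_eq (fun y =>
    (ratAlg_poly x htr y).symm)
  have f1 : FiniteDimensional (RatFunc κ) L := finiteDimensional_ratAlg x htr hfin
  have hc0 : CharZero (RatFunc κ) :=
    charZero_of_injective_algebraMap (algebraMap κ (RatFunc κ)).injective
  have hBd : IsDedekindDomain (integralClosure κ[X] L) :=
    integralClosure.isDedekindDomain κ[X] (RatFunc κ) L
  have hBf : IsFractionRing (integralClosure κ[X] L) L :=
    integralClosure.isFractionRing_of_finite_extension (RatFunc κ) L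
  have hBfin : Module.Finite κ[X] (integralClosure κ[X] L) :=
    IsIntegralClosure.finite κ[X] (RatFunc κ) L (integralClosure κ[X] L)
  have f1 : FaithfulSMul κ[X] (integralClosure κ[X] L) := by
    rw [faithfulSMul_iff_algebraMap_injective]
    intro y z hyz
    have h := congrArg (algebraMap (integralClosure κ[X] L) L) hyz
    rw [← IsScalarTower.algebraMap_apply, ← IsScalarTower.algebraMap_apply,
      IsScalarTower.algebraMap_apply κ[X] (RatFunc κ) L,
      IsScalarTower.algebraMap_apply κ[X] (RatFunc κ) L] at h
    exact IsFractionRing.injective κ[X] (RatFunc κ) ((algebraMap (RatFunc κ) L).injective h)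
  have hX : algebraMap κ[X] L X = x := by
    change aeval x X = x
    simp
  have hP : OverZero P₀ := by
    unfold OverZero
    rw [hX]
    exact ht
  have hu : ∀ z ∈ P₀.ring.nonunits, z / algebraMap κ[X] L X ∈ P₀.ring := by
    intro z hz
    rw [hX]
    rcases eq_or_ne z 0 with rfl | hz0
    · rw [zero_div]
      exact P₀.ring.zero_mem
    · rw [mem_iff_ord hF P₀ (div_ne_zero hz0 hx0), div_eq_mul_inv,
        ord_mul' hF P₀ hz0 (inv_ne_zero hx0), ord_inv' hF P₀ hx0, hx1]
      have := (nonunit_iff_ord hF P₀ hz0).1 hz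
      omega
  obtain ⟨z₀, Φ, hΦm, hΦi, hΦ0, hΦ', hgen⟩ := coord34 (integralClosure κ[X] L) P₀ hP
    (unram34 (integralClosure κ[X] L) P₀ hP hu)
  have hae : ∀ p : κ[X][X], aeval z₀ p = ev2 x z₀ p := fun p => rfl
  refine ⟨x, z₀, Φ, htr, ?_, hΦm, hΦi, ?_, ValuationSubring.nonunits_subset ht, ?_⟩
  · have hE : ∀ p : κ[X][X], aeval z₀ p ∈ IntermediateField.adjoin κ {x, z₀} := by
      intro p
      have hxE : x ∈ IntermediateField.adjoin κ {x, z₀} :=
        IntermediateField.subset_adjoin _ _ (Set.mem_insert _ _)
      have hzE : z₀ ∈ IntermediateField.adjoin κ {x, z₀} :=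
        IntermediateField.subset_adjoin _ _ (Set.mem_insert_of_mem _ rfl)
      rw [aeval_eq_sum_range]
      refine sum_mem fun i _ => ?_
      rw [Algebra.smul_def]
      refine mul_mem ?_ (pow_mem hzE i)
      change aeval x (p.coeff i) ∈ _
      rw [aeval_eq_sum_range]
      refine sum_mem fun j _ => ?_
      rw [Algebra.smul_def]
      exact mul_mem (algebraMap_mem _ _) (pow_mem hxE j)
    have hB : ∀ b : integralClosure κ[X] L, algebraMap (integralClosure κ[X] L) L b ∈
        IntermediateField.adjoin κ {x, z₀} := by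
      intro b
      obtain ⟨p, q, hq, hpq⟩ := hgen b
      rw [eq_div_of_mul_eq hq hpq]
      exact div_mem (hE p) (hE q)
    rw [eq_top_iff]
    intro y _
    obtain ⟨a, b, _, rfl⟩ := IsFractionRing.div_surjective (integralClosure κ[X] L) y
    exact div_mem (hB a) (hB b)
  · rw [← hae]
    exact hΦ0
  · rw [← hae]
    exact hΦ'

end Pool.Agent.SE
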