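import Pool.Agent.Helper34.SE.T1b
import Pool.Agent.Helper10.SE.Defs3

/-!
# Project SE, block T1: good places exist, for families
-/

universe u v w

namespace Pool.Agent.SE

open Polynomial Pool.Agent.LT Pool.Agent.Helper37.UL UL Pool.Agent.OPN Pool.Agent.OPG Pool.Agent.TWT _root_.TW

theorem t1 : StmtT1.{u} := by
  intro E C _ _ _ _ _ _ A hA T q hT halg hq m J U S _ π h I' _ a' a hxx Fv hAFv hFv haFv' haFv hwr0
    u hu0 i₁ hu1 hu B U0 hB hU0
  classical
  have hC0 : CharZero C := charZero_of_injective_algebraMap (algebraMap E C).injective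
  have hA0 : CharZero A := inferInstance
  have hSa : IsAlgClosed S := h.isAlgClosed
  have hS0 : CharZero S := h.charZero
  -- the field `A'`
  set AS : Subfield S := A.map (UP.cst π) with hAS
  obtain ⟨x, hxdef⟩ : ∃ x : Fin (m + 1) → S, x = xg π fun j e => algebraMap E C (a j e) := ⟨_, rfl⟩
  obtain ⟨x', hx'def⟩ : ∃ x' : I' → S, x' = xg π fun j e => algebraMap E C (a' j e) := ⟨_, rfl⟩
  have hsum : (xg π fun j (i : I' ⊕ Fin (m + 1)) => algebraMap E C (Sum.elim (a' j) (a j) i)) =
      Sum.elim x' x := by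
    funext i
    rcases i with i | i
    · rw [hx'def]
      rfl
    · rw [hxdef]
      rfl
  rw [hsum] at hxx hwr0
  rw [← hx'def] at hB hU0
  set A' : Subfield S := gn AS x' with hA'def
  have hx : AlgebraicIndependent A' x := by
    have h1 : AlgebraicIndependent AS (Sum.elim x x') := by
      have h2 := hxx.comp Sum.swap Sum.swap_leftInverse.injective
      convert h2 using 1
      funext i
      rcases i with i | i <;> rfl
    exact (indep_sum_iff.1 h1).2
  have hAA' : AS ≤ A' := le_gn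
  have hxAS : AlgebraicIndependent AS x := indep_mono hAA' hx
  have hA' : A' ≤ h.gsub (algebraMap E C).fieldRange := by
    refine gn_le ?_ ?_
    · rintro _ ⟨z, hz, rfl⟩
      exact h.const_mem_gsub.2 (hA hz)
    · intro i
      rw [hx'def]
      exact ⟨fun j => algebraMap E C (a' j i), fun j => ⟨_, rfl⟩, rfl⟩
  have hAF : A' ≤ h.fsub Fv := by
    refine gn_le ?_ ?_
    · rintro _ ⟨z, hz, rfl⟩
      exact h.const_mem_fsub fun j => hAFv j hz
    · intro i
      rw [hx'def]
      exact ⟨fun j => algebraMap E C (a' j i), fun j => haFv' j i, rfl⟩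
  have hwr : ∀ z ∈ h.fsub Fv, IsAlgebraic (gn A' x) z → z ∈ gn (acl A') x := by
    intro z hz hza
    have h1 : gn A' x ≤ gn AS (Sum.elim x' x) := by
      refine gn_le (gn_le le_gn fun i => mem_gn (x := Sum.elim x' x) (Sum.inl i)) fun e =>
        mem_gn (x := Sum.elim x' x) (Sum.inr e)
    have h2 := hwr0 z hz (isAlgebraic_mono h1 hza)
    refine (gn_le ?_ ?_ : gn ((acl A).map (UP.cst π)) (Sum.elim x' x) ≤ _) h2
    · rintro _ ⟨y, hy, rfl⟩
      refine le_gn (acl_mono hAA' ?_)
      exact mem_acl.2 (alg_map' (L := AS) (UP.cst π) (fun w hw => ⟨w, hw, rfl⟩) (mem_acl.1 hy))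
    · rintro (i | i)
      · exact le_gn (le_acl (mem_gn i))
      · exact mem_gn i
  -- the algebra structure
  obtain ⟨φ, hφ⟩ : ∃ φ : A →+* E, ∀ r, algebraMap E C (φ r) = r := by
    let e : E ≃+* (algebraMap E C).fieldRange :=
      RingEquiv.ofBijective (algebraMap E C).rangeRestrictField
        ⟨(algebraMap E C).rangeRestrictField.injective, fun ⟨_, e, he⟩ => ⟨e, Subtype.ext he⟩⟩
    refine ⟨(e.symm : (algebraMap E C).fieldRange →+* E).comp (Subfield.inclusion hA), fun r => ?_⟩
    have h1 : e (e.symm (Subfield.inclusion hA r)) = Subfield.inclusion hA r :=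
      e.apply_symm_apply _
    exact congrArg Subtype.val h1
  let iA : Algebra A E := φ.toAlgebra
  have sA : IsScalarTower A E C := IsScalarTower.of_algebraMap_eq fun r => (hφ r).symm
  -- the small field
  set Cs : Subfield C := acl (ad A {T}) with hCs
  have hqCs : q ∈ Cs := mem_acl.2 hq
  have hTCs : T ∈ Cs := le_acl mem_adE
  have hTq : ad A {T, q} ≤ Cs := by
    rw [ad_pair]
    refine ad_le le_acl ?_
    intro z hz
    rw [Set.mem_singleton_iff.1 hz]
    exact hqCs
  have huC : ∀ e, u e ∈ Cs := fun e => hTq (hu e)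
  have hACs : A ≤ Cs := le_ad.trans le_acl
  have hcstC : ∀ c : C, c ∈ Cs → UP.cst π c ∈ acl (ad A' {UP.cst π T}) := by
    intro c hc
    have h1 : UP.cst π c ∈ acl (ad AS {UP.cst π T}) := by
      refine mem_acl.2 (alg_map' (UP.cst π) (fun y hy => ?_) (mem_acl.1 hc))
      rw [hAS, ← map_ad1]
      exact ⟨y, hy, rfl⟩
    exact acl_mono (ad_mono hAA' le_rfl) h1
  -- the places
  obtain ⟨vk, hvk⟩ : ∃ vk : J → C, ∀ j, vk j = ∑ e, algebraMap E C (a j e) * u e := ⟨_, fun _ => rfl⟩
  have htr : ∀ᶠ j in (U : Filter J), Transcendental E (vk j) := by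
    simp only [hvk]
    exact ev_transc hA h (hxdef ▸ hxAS) huC hT hu1
  have hplace : ∀ j, ∃ (W : ValuationSubring C) (t : C), Base E W t ∧
      (Transcendental E (vk j) → t = vk j) := by
    intro j
    by_cases hj : Transcendental E (vk j)
    · obtain ⟨W, hW⟩ := exists_place hj (alg_of_transcendental hj halg) 0
      rw [map_zero, sub_zero] at hW
      exact ⟨W, vk j, hW, fun _ => rfl⟩
    · obtain ⟨W, hW⟩ := exists_place hT halg 0
      exact ⟨W, _, hW, fun h0 => absurd h0 hj⟩
  choose W t hW ht using hplace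
  choose lam hlam hlam0 using fun j => exists_lam (hW j)
  have hE : ∀ j, ∀ e : E, algebraMap E C e ∈ W j := fun j => (hW j).const
  have hv0 : ∀ᶠ j in (U : Filter J), (W j).valuation (vk j) < 1 := by
    filter_upwards [htr] with j hj
    rw [← ht j hj]
    exact ((W j).mem_nonunits_iff).1 (hW j).t_mem
  have hv : ∀ᶠ j in (U : Filter J), (W j).valuation (∑ e, algebraMap E C (a j e) * u e) < 1 := by
    simp only [← hvk]
    exact hv0
  have hmem : ∀ c ∈ Cs, ∀ᶠ j in (U : Filter J), c ∈ W j := fun c hc =>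
    ev_mem_W hA h (hxdef ▸ hxAS) hu0 huC hE hv hc
  have hunit : ∀ c ∈ Cs, c ≠ 0 → ∀ᶠ j in (U : Filter J), (W j).valuation c = 1 := fun c hc hc0 =>
    ev_unit_W hA h (hxdef ▸ hxAS) hu0 huC hE hv hc hc0
  obtain ⟨ι, hι⟩ := exists_iotaS h hmem (lam := lam)
  -- the germs
  obtain ⟨WS, hWS⟩ := exists_WS34 h W
  have hmemG : ∀ f : J → C, π f ∈ acl (ad A' {UP.cst π T}) → ∀ᶠ j in (U : Filter J), f j ∈ W j :=
    fun f hf => ev_mem34 h hA' (hxdef ▸ hx) hu0 (fun e => hcstC _ (huC e)) hE hv hWS hf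
  have hunitG : ∀ f : J → C, π f ∈ acl (ad A' {UP.cst π T}) → π f ≠ 0 →
      ∀ᶠ j in (U : Filter J), (W j).valuation (f j) = 1 :=
    fun f hf hf0 => ev_one34 h hA' (hxdef ▸ hx) hu0 (fun e => hcstC _ (huC e)) hE hv hWS hf hf0
  -- the primitive element
  have hTA : Transcendental A T := by
    intro h0
    apply hT
    exact IsAlgebraic.extendScalars (algebraMap A E).injective h0
  obtain ⟨G, hG, hG'⟩ := exists_eqn (F := A) (θ := q) hTA (alg_adjoin_iff.2 hq)
  obtain ⟨Q, P, hQ0, hP0, hP1, hP⟩ := exists_common (F := A) (θ := q) hu0 hu1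
    (fun e => mem_adjoin_iff.2 (hu e))
  have hevC : ∀ R : A[X][X], ev2 A T q R ∈ Cs := fun R => ev2_mem hACs hTCs hqCs R
  -- the Jacobian
  have hjac : ∀ᶠ j in (U : Filter J), ∑ e, algebraMap E C (a j e) *
      lc W lam (ev2 A T q (jac G (P e))) j ≠ 0 := by
    refine ev_sum_ne hA h (hxdef ▸ hxAS) hu0 hE hlam hlam0 hmem hι hv le_rfl
      (c := fun e => ev2 A T q (jac G (P e))) (fun e => hevC _) (i₀ := i₁) ?_ huC le_acl
    rw [hu1, hP0, hP1, jac_X_mul, map_add, map_mul, map_mul, _root_.TW.ev2_C, aeval_X, add_sub_cancel_right]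
    exact mul_ne_zero hQ0 hG'
  -- the residues of the elements of `B`
  have hBK : ∀ b ∈ B, ∀ᶠ j in (U : Filter J), b j ∉ ad (Fv j) {T, q} →
      lc W lam (b j) j ∉ ad (Fv j) {lc W lam T j, lc W lam q j} := by
    intro b hb
    by_cases hbj : ∀ᶠ j in (U : Filter J), b j ∉ ad (Fv j) {T, q}
    · filter_upwards [ev_notMemG34 hA h hA' hAA' (hxdef ▸ hx) hu0 hE hlam hlam0 hv hmem hmemG hAF haFv
        (hxdef ▸ hwr) hqCs hu (hB b hb) hbj] with j hj _
      exact hj
    · rw [← Ultrafilter.eventually_not] at hbj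
      filter_upwards [hbj] with j hj h0
      exact absurd h0 hj
  have c9 : ∀ᶠ j in (U : Filter J), ∀ e, ev2 A T q (jac G (P e)) ∈ W j :=
    Filter.eventually_all.2 fun e => hmem _ (hevC _)
  have c7 := (Filter.eventually_all_finset B).2 hBK
  have c6 : ∀ᶠ j in (U : Filter J), ∀ b ∈ B, b j ∈ W j :=
    (Filter.eventually_all_finset B).2 fun b hb => hmemG b (hB b hb)
  have c2 : ∀ᶠ j in (U : Filter J), ∀ u ∈ U0, (W j).valuation (u j) = 1 :=
    (Filter.eventually_all_finset U0).2 fun u hu => hunitG u (hU0 u hu).1 (hU0 u hu).2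
  obtain ⟨j, k1, k2, k3, k4, k5, k6, k7, k8, k9, k10, k11⟩ := (hjac.and (c2.and
    ((hunit _ (hevC _) hG').and ((hmem T hTCs).and ((hmem q hqCs).and (c6.and (c7.and
    ((hunit _ (hevC _) hQ0).and (c9.and (htr.and hv0)))))))))).exists
  set τ : E := lam j ⟨T, k4⟩ with hτ
  set l : E := lam j ⟨q, k5⟩ with hl
  have hTτ : (W j).valuation (T - algebraMap E C τ) < 1 :=
    lam_sub (hE j) (hlam j) (hlam0 j) ⟨T, k4⟩
  have hθl : (W j).valuation (q - algebraMap E C l) < 1 :=
    lam_sub (hE j) (hlam j) (hlam0 j) ⟨q, k5⟩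
  -- the residues of the polynomials
  have hlev : ∀ (R : A[X][X]) (hR : ev2 A T q R ∈ W j),
      lam j ⟨ev2 A T q R, hR⟩ = ev2 A τ l R := by
    intro R hR
    refine lam_eq (hE j) (hlam j) (hlam0 j) ?_
    have h1 := cong (hE j) hTτ hθl (R.map (mapRingHom (algebraMap A E)))
    rwa [ev2_map, ev2_map] at h1
  -- the simple zero
  let Pj : E[X][X] := ∑ e, Polynomial.C (Polynomial.C (a j e)) *
    (P e).map (mapRingHom (algebraMap A E))
  have hPj : ev2 E T q Pj = vk j * ev2 A T q Q := by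
    change ev2 E T q (∑ e, Polynomial.C (Polynomial.C (a j e)) *
      (P e).map (mapRingHom (algebraMap A E))) = _
    rw [hvk, map_sum, Finset.sum_mul]
    refine Finset.sum_congr rfl fun e _ => ?_
    rw [map_mul, _root_.TW.ev2_C, aeval_C, ev2_map, hP]
    ring
  have hvPj : (W j).valuation (ev2 E T q Pj) = (W j).valuation (vk j) := by
    rw [hPj, map_mul, k8, mul_one]
  have hPj0 : ev2 E τ l Pj = 0 := by
    have h1 := cong (hE j) hTτ hθl Pj
    have h2 := Valuation.map_sub_lt _ (hvPj.trans_lt k11) h1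
    rw [sub_sub_cancel] at h2
    by_contra h0
    rw [val_const (hE j) h0] at h2
    exact lt_irrefl _ h2
  have hJj : ev2 E τ l (jac (G.map (mapRingHom (algebraMap A E))) Pj) ≠ 0 := by
    intro h0
    apply k1
    have h1 : jac (G.map (mapRingHom (algebraMap A E))) Pj =
        ∑ e, Polynomial.C (Polynomial.C (a j e)) *
          jac (G.map (mapRingHom (algebraMap A E))) ((P e).map (mapRingHom (algebraMap A E))) :=
      jac_lin _ _ _ _
    rw [h1, map_sum] at h0
    rw [← map_zero (algebraMap E C), ← h0, map_sum]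
    refine Finset.sum_congr rfl fun e _ => ?_
    rw [lc_of_mem (k9 e), hlev, map_mul, map_mul, _root_.TW.ev2_C, aeval_C, jac_map, ev2_map]
    rfl
  have hval : (W j).valuation (vk j) = (W j).valuation (T - algebraMap E C τ) := by
    have h1 := val_simple (hE j) hTτ hθl (G := G.map (mapRingHom (algebraMap A E)))
      (by rw [ev2_map]; exact hG) (by rw [derivative_map, ev2_map]; exact k3) Pj hPj0 hJj
    rw [hvPj] at h1
    exact h1
  -- the base
  have hTne : T - algebraMap E C τ ≠ 0 := by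
    intro h0
    apply hT
    rw [sub_eq_zero.1 h0]
    exact isAlgebraic_algebraMap τ
  have hTtr : Transcendental E (T - algebraMap E C τ) := by
    intro h0
    apply hT
    have h1 := h0.add (isAlgebraic_algebraMap (A := C) τ)
    rwa [sub_add_cancel] at h1
  have hbase : Base E (W j) (T - algebraMap E C τ) :=
    ⟨hE j, hTne, ((W j).mem_nonunits_iff).2 hTτ, alg_of_transcendental hTtr halg⟩
  have hvk0 : vk j ≠ 0 := by
    intro h0
    rw [h0, map_zero] at hval
    exact (Valuation.ne_zero_iff _).2 hTne hval.symm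
  refine ⟨j, W j, ?_, hE j, k2, k6, ?_, ?_, ?_, ?_⟩
  · intro h0
    have h1 : (T - algebraMap E C τ)⁻¹ ∈ W j := by rw [h0]; trivial
    have h2 := (hbase).t_mem
    rcases (ValuationSubring.mem_nonunits_iff_or _).1 h2 with h3 | h3
    · exact hTne h3
    · exact h3 h1
  · rw [← hvk]
    exact hvk0
  · rw [← hvk]
    exact k11
  · intro z hz hz0
    have hz' : z ∈ IntermediateField.adjoin E {T, q} := by
      rw [← IntermediateField.mem_toSubfield, adjoin_sub]
      exact hz
    obtain ⟨i, hi⟩ := vals_k (F := E) hbase hθl (G := G.map (mapRingHom (algebraMap A E)))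
      (by rw [ev2_map]; exact hG) (by rw [derivative_map, ev2_map]; exact k3) hz' hz0
    refine ⟨i, ?_⟩
    rw [← hvk, hval]
    exact hi
  · intro b hb hbn
    have h1 := k7 b hb hbn
    rw [lc_of_mem (k6 b hb), lc_of_mem k4, lc_of_mem k5] at h1
    exact exists_gammaS hbase hT halg (hlam j) (hlam0 j) hG k3 k5 (k6 b hb) (hAFv j) (hFv j) h1

end Pool.Agent.SE
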