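import Mathlib

/-!
# Project SE, lemma ALG

Over a domain `R`, a polynomial `t` in two variables is algebraic over `R` modulo `f(y)` and
`Φ(y)(z)` whenever `f ≠ 0` and the leading coefficient of `Φ` in `z` is a nonzero constant.
-/

open Polynomial

namespace Pool.Agent.SE

/-- Clearing denominators coefficientwise. -/
private theorem clr34 {A B : Type*} [CommRing A] [CommRing B] (φ : A →+* B) (N : Submonoid A)
    (h : ∀ b : B, ∃ n ∈ N, ∃ a : A, φ a = φ n * b) (p : B[X]) :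
    ∃ n ∈ N, ∃ q : A[X], q.map φ = C (φ n) * p := by
  induction p using Polynomial.induction_on' with
  | add p q hp hq =>
    obtain ⟨n, hn, p', hp'⟩ := hp
    obtain ⟨m, hm, q', hq'⟩ := hq
    refine ⟨n * m, N.mul_mem hn hm, C m * p' + C n * q', ?_⟩
    simp only [Polynomial.map_add, Polynomial.map_mul, map_C, hp', hq', map_mul]
    ring
  | monomial k b =>
    obtain ⟨n, hn, a, ha⟩ := h b
    exact ⟨n, hn, monomial k a, by rw [map_monomial, ha, C_mul_monomial]⟩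

/-- The statement over a field, for `Ψ` monic in the outer variable. -/
private theorem algK34 {K : Type*} [Field K] (f : K[X]) (hf : f ≠ 0) (Ψ : K[X][X])
    (hΨ : Ψ.Monic) (t : K[X][X]) :
    ∃ χ : K[X], χ ≠ 0 ∧ ∃ A B : K[X][X],
      eval₂ ((C : K[X] →+* K[X][X]).comp (C : K →+* K[X])) t χ = A * C f + B * Ψ := by
  have hfin1 : Module.Finite K (AdjoinRoot f) := (AdjoinRoot.powerBasis hf).finite
  have hΨ1 : (Ψ.map (AdjoinRoot.mk f)).Monic := hΨ.map _
  have hfin2 : Module.Finite (AdjoinRoot f) (AdjoinRoot (Ψ.map (AdjoinRoot.mk f))) :=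
    hΨ1.finite_adjoinRoot
  have hfin3 : Module.Finite K (AdjoinRoot (Ψ.map (AdjoinRoot.mk f))) :=
    Module.Finite.trans (AdjoinRoot f) _
  set π : K[X][X] →+* AdjoinRoot (Ψ.map (AdjoinRoot.mk f)) :=
    (AdjoinRoot.mk (Ψ.map (AdjoinRoot.mk f))).comp (mapRingHom (AdjoinRoot.mk f)) with hπ
  have hint : IsIntegral K (π t) := Algebra.IsIntegral.isIntegral _
  obtain ⟨χ, hχ, hev⟩ := hint
  refine ⟨χ, hχ.ne_zero, ?_⟩
  have hcomp : π.comp ((C : K[X] →+* K[X][X]).comp (C : K →+* K[X])) =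
      algebraMap K (AdjoinRoot (Ψ.map (AdjoinRoot.mk f))) := by
    ext a
    simp only [hπ, RingHom.comp_apply, coe_mapRingHom, map_C]
    rfl
  set P : K[X][X] := eval₂ ((C : K[X] →+* K[X][X]).comp (C : K →+* K[X])) t χ with hP
  have hπP : π P = 0 := by
    rw [hP, hom_eval₂, hcomp, hev]
  have hdiv : Ψ.map (AdjoinRoot.mk f) ∣ P.map (AdjoinRoot.mk f) := by
    rw [← AdjoinRoot.mk_eq_zero]
    exact hπP
  obtain ⟨g, hg⟩ := hdiv
  obtain ⟨g', hg'⟩ := Polynomial.map_surjective (AdjoinRoot.mk f) AdjoinRoot.mk_surjective g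
  have hz : (P - Ψ * g').map (AdjoinRoot.mk f) = 0 := by
    rw [Polynomial.map_sub, Polynomial.map_mul, hg', hg, sub_self]
  have hCf : C f ∣ P - Ψ * g' := by
    rw [C_dvd_iff_dvd_coeff]
    intro i
    rw [← AdjoinRoot.mk_eq_zero, ← coeff_map, hz, coeff_zero]
  obtain ⟨A, hA⟩ := hCf
  refine ⟨A, g', ?_⟩
  linear_combination hA

/-- **ALG**, with the field of fractions as a parameter. -/
private theorem algF34 {R K : Type*} [CommRing R] [IsDomain R] [Field K] [Algebra R K]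
    [IsFractionRing R K] (f : R[X]) (hf : f ≠ 0) (Φ : R[X][X]) (d : R)
    (hd : d ≠ 0) (hlead : Φ.leadingCoeff = C d) (t : R[X][X]) :
    ∃ χ : R[X], χ ≠ 0 ∧ ∃ A B : R[X][X],
      eval₂ ((C : R[X] →+* R[X][X]).comp (C : R →+* R[X])) t χ = A * C f + B * Φ := by
  classical
  set φ : R →+* K := algebraMap R K with hφ
  have hφi : Function.Injective φ := IsFractionRing.injective R K
  set φ1 : R[X] →+* K[X] := mapRingHom φ with hφ1
  have hφ1i : Function.Injective φ1 := Polynomial.map_injective φ hφi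
  have hφ2i : Function.Injective (Polynomial.map φ1) := Polynomial.map_injective φ1 hφ1i
  have hfK : φ1 f ≠ 0 := fun h => hf (hφ1i (by rw [h, map_zero]))
  have hdK : φ d ≠ 0 := fun h => hd (hφi (by rw [h, map_zero]))
  -- the monic version of `Φ` over `K`
  have hΨ : (C (C (φ d)⁻¹) * Φ.map φ1).Monic := by
    rw [Monic, leadingCoeff_mul, leadingCoeff_C, leadingCoeff_map_of_injective hφ1i, hlead]
    rw [hφ1, coe_mapRingHom, map_C, ← C_mul, inv_mul_cancel₀ hdK, C_1]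
  obtain ⟨χK, hχK, A, B, hAB⟩ := algK34 (φ1 f) hfK _ hΨ (t.map φ1)
  -- clear the denominators
  have hN0 : ∀ b : K, ∃ n ∈ nonZeroDivisors R, ∃ a : R, φ a = φ n * b := by
    intro b
    obtain ⟨⟨a, s⟩, has⟩ := IsLocalization.surj (nonZeroDivisors R) b
    exact ⟨s, s.2, a, by rw [← has, mul_comm]⟩
  have hN1 : ∀ b : K[X], ∃ n ∈ (nonZeroDivisors R).map (C : R →+* R[X]), ∃ a : R[X],
      φ1 a = φ1 n * b := by
    intro b
    obtain ⟨n, hn, q, hq⟩ := clr34 φ _ hN0 b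
    refine ⟨C n, ⟨n, hn, rfl⟩, q, ?_⟩
    rw [hφ1, coe_mapRingHom, hq, map_C]
  obtain ⟨n1, hn1, χ1, hχ1⟩ := clr34 φ _ hN0 χK
  obtain ⟨_, ⟨n2, hn2, rfl⟩, A1, hA1⟩ := clr34 φ1 _ hN1 A
  obtain ⟨_, ⟨n3, hn3, rfl⟩, B1, hB1⟩ := clr34 φ1 _ hN1 (B * C (C (φ d)⁻¹))
  have hn10 : n1 ≠ 0 := nonZeroDivisors.ne_zero hn1
  have hn20 : n2 ≠ 0 := nonZeroDivisors.ne_zero hn2
  have hn30 : n3 ≠ 0 := nonZeroDivisors.ne_zero hn3
  have hφ1C : ∀ r : R, φ1 (C r) = C (φ r) := fun r => by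
    rw [hφ1, coe_mapRingHom, map_C]
  simp only [hφ1C] at hA1 hB1
  refine ⟨C (n2 * n3) * χ1, ?_, C (C (n1 * n3)) * A1, C (C (n1 * n2)) * B1, ?_⟩
  · refine mul_ne_zero (C_ne_zero.2 (mul_ne_zero hn20 hn30)) ?_
    rintro rfl
    rw [Polynomial.map_zero] at hχ1
    refine mul_ne_zero (C_ne_zero.2 fun h => hn10 (hφi (by rw [h, map_zero]))) hχK hχ1.symm
  · apply hφ2i
    have hcc : (mapRingHom φ1).comp ((C : R[X] →+* R[X][X]).comp (C : R →+* R[X])) =
        ((C : K[X] →+* K[X][X]).comp (C : K →+* K[X])).comp φ := by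
      ext a
      simp [hφ1]
    have e1 : (eval₂ ((C : R[X] →+* R[X][X]).comp (C : R →+* R[X])) t χ1).map φ1 =
        C (C (φ n1)) * eval₂ ((C : K[X] →+* K[X][X]).comp (C : K →+* K[X])) (t.map φ1) χK := by
      have h1 := hom_eval₂ χ1 ((C : R[X] →+* R[X][X]).comp (C : R →+* R[X])) (mapRingHom φ1) t
      have h2 := eval₂_map (p := χ1) φ ((C : K[X] →+* K[X][X]).comp (C : K →+* K[X]))
        (t.map φ1)
      rw [hcc, coe_mapRingHom, ← h2, hχ1, eval₂_mul, eval₂_C] at h1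
      exact h1
    rw [eval₂_mul, eval₂_C, Polynomial.map_mul, e1, hAB]
    simp only [RingHom.comp_apply, Polynomial.map_add, Polynomial.map_mul, map_C, hφ1C, hA1, hB1,
      map_mul]
    ring

/-- **ALG.** -/
theorem alg {R : Type*} [CommRing R] [IsDomain R] (f : R[X]) (hf : f ≠ 0) (Φ : R[X][X]) (d : R)
    (hd : d ≠ 0) (hlead : Φ.leadingCoeff = C d) (t : R[X][X]) :
    ∃ χ : R[X], χ ≠ 0 ∧ ∃ A B : R[X][X],
      eval₂ ((C : R[X] →+* R[X][X]).comp (C : R →+* R[X])) t χ = A * C f + B * Φ :=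
  algF34 (K := FractionRing R) f hf Φ d hd hlead t

end Pool.Agent.SE
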