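import Pool.Agent.Helper10.SE.Defs7

/-!
# Project SE: a primitive element with a small coefficient
-/

universe u

namespace Pool.Agent.SE

open Polynomial

private theorem ev2_alg34 {k K : Type u} [Field k] [Field K] [Algebra k K] (σ : K ≃ₐ[k] K)
    (x z : K) (Φ : k[X][X]) : ev2 (σ x) (σ z) Φ = σ (ev2 x z Φ) := by
  have h : (σ : K →+* K).comp (ev2 (k := k) x z) = ev2 (k := k) (σ x) (σ z) := by
    apply Polynomial.ringHom_ext
    · intro p
      have h1 : σ (aeval x p) = aeval (σ x) p := (aeval_algHom_apply (σ : K →ₐ[k] K) x p).symm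
      rw [RingHom.comp_apply]
      unfold ev2
      rw [coe_eval₂RingHom, coe_eval₂RingHom, eval₂_C, eval₂_C]
      exact h1
    · rw [RingHom.comp_apply]
      unfold ev2
      rw [coe_eval₂RingHom, coe_eval₂RingHom, eval₂_X, eval₂_X]
      rfl
  exact (congrArg (fun g => g Φ) h).symm

/-- the pairs `(a, b)` with `f(a) = 0`, `Φ(a, b) = 0` -/
private theorem pairs34 {k : Type u} [Field k] {f : k[X]} (hf : f ≠ 0) {Φ : k[X][X]}
    (hΦ : Φ.Monic) : ∃ Z : Finset (AlgebraicClosure k × AlgebraicClosure k),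
      Z.card ≤ f.natDegree * Φ.natDegree ∧
      ∀ a b, aeval a f = 0 → ev2 a b Φ = 0 → (a, b) ∈ Z := by
  classical
  let R : Finset (AlgebraicClosure k) := (f.aroots (AlgebraicClosure k)).toFinset
  let Q : AlgebraicClosure k → (AlgebraicClosure k)[X] :=
    fun a => Φ.map (aeval a : k[X] →ₐ[k] AlgebraicClosure k).toRingHom
  let Z : Finset (AlgebraicClosure k × AlgebraicClosure k) :=
    R.biUnion fun a => (Q a).roots.toFinset.image fun b => (a, b)
  refine ⟨Z, ?_, ?_⟩
  · calc Z.card ≤ ∑ a ∈ R, ((Q a).roots.toFinset.image fun b => (a, b)).card :=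
          Finset.card_biUnion_le
      _ ≤ ∑ a ∈ R, Φ.natDegree := by
          refine Finset.sum_le_sum fun a _ => ?_
          refine Finset.card_image_le.trans ((Multiset.toFinset_card_le _).trans ?_)
          refine (card_roots' _).trans ?_
          exact natDegree_map_le
      _ = R.card * Φ.natDegree := by rw [Finset.sum_const, smul_eq_mul]
      _ ≤ f.natDegree * Φ.natDegree := by
          refine Nat.mul_le_mul_right _ ((Multiset.toFinset_card_le _).trans ?_)
          unfold aroots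
          exact (card_roots' _).trans natDegree_map_le
  · intro a b ha hb
    refine Finset.mem_biUnion.2 ⟨a, ?_, Finset.mem_image.2 ⟨b, ?_, rfl⟩⟩
    · rw [Multiset.mem_toFinset, mem_aroots]
      exact ⟨hf, ha⟩
    · rw [Multiset.mem_toFinset, mem_roots (hΦ.map _).ne_zero, IsRoot.def, eval_map]
      exact hb

/-- **A primitive element `ξ + l ζ` with `l` small.** -/
theorem exists_l {k : Type u} [Field k] [CharZero k] {f : k[X]} (hf : f ≠ 0) {Φ : k[X][X]}
    (hΦ : Φ.Monic) {ξ ζ : AlgebraicClosure k} (hξ : aeval ξ f = 0) (hζ : ev2 ξ ζ Φ = 0) :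
    ∃ l : ℕ, l ≤ (f.natDegree * Φ.natDegree) ^ 2 ∧
      ξ ∈ IntermediateField.adjoin k {ξ + (l : AlgebraicClosure k) * ζ} ∧
      ζ ∈ IntermediateField.adjoin k {ξ + (l : AlgebraicClosure k) * ζ} ∧
      ∀ c : AlgebraicClosure k, aeval c (minpoly k (ξ + (l : AlgebraicClosure k) * ζ)) = 0 →
        ∃ ξ' ζ' : AlgebraicClosure k, aeval ξ' f = 0 ∧ ev2 ξ' ζ' Φ = 0 ∧ c = ξ' + l * ζ' := by
  classical
  obtain ⟨Z, hZc, hZ⟩ := pairs34 (k := k) hf hΦ
  have hmem : (ξ, ζ) ∈ Z := hZ ξ ζ hξ hζ
  have hC0 : CharZero (AlgebraicClosure k) :=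
    charZero_of_injective_algebraMap (algebraMap k (AlgebraicClosure k)).injective
  have hgal : ∀ σ : AlgebraicClosure k ≃ₐ[k] AlgebraicClosure k, (σ ξ, σ ζ) ∈ Z := by
    intro σ
    refine hZ _ _ ?_ ?_
    · have h1 : σ (aeval ξ f) = aeval (σ ξ) f :=
        (aeval_algHom_apply (σ : AlgebraicClosure k →ₐ[k] AlgebraicClosure k) ξ f).symm
      rw [← h1, hξ, map_zero]
    · rw [ev2_alg34, hζ, map_zero]
  -- the bad values of `l`
  let bad : Finset (AlgebraicClosure k) := (Z.erase (ξ, ζ)).image fun p => (ξ - p.1) / (p.2 - ζ)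
  have hbadc : bad.card < Z.card := by
    refine lt_of_le_of_lt Finset.card_image_le ?_
    exact Finset.card_erase_lt_of_mem hmem
  obtain ⟨l, hl, hlb⟩ : ∃ l ∈ Finset.range Z.card, ((l : ℕ) : AlgebraicClosure k) ∉ bad := by
    by_contra hcon
    push Not at hcon
    have h1 : ((Finset.range Z.card).image fun l : ℕ => (l : AlgebraicClosure k)) ⊆ bad := by
      intro z hz
      obtain ⟨l, hl, rfl⟩ := Finset.mem_image.1 hz
      exact hcon l hl
    have h2 := Finset.card_le_card h1
    rw [Finset.card_image_of_injective _ Nat.cast_injective, Finset.card_range] at h2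
    omega
  have hl' : l < Z.card := Finset.mem_range.1 hl
  have hfix : ∀ σ : AlgebraicClosure k ≃ₐ[k] AlgebraicClosure k,
      σ (ξ + (l : AlgebraicClosure k) * ζ) = ξ + (l : AlgebraicClosure k) * ζ →
      σ ξ = ξ ∧ σ ζ = ζ := by
    intro σ hσ
    rw [map_add, map_mul, map_natCast] at hσ
    by_cases h1 : σ ζ = ζ
    · refine ⟨?_, h1⟩
      rw [h1] at hσ
      exact add_right_cancel hσ
    · exfalso
      apply hlb
      refine Finset.mem_image.2 ⟨(σ ξ, σ ζ), Finset.mem_erase.2 ⟨?_, hgal σ⟩, ?_⟩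
      · intro h2
        exact h1 (congrArg Prod.snd h2)
      · have h3 : σ ζ - ζ ≠ 0 := sub_ne_zero.2 h1
        rw [div_eq_iff h3]
        linear_combination -hσ
  have hin : ∀ z : AlgebraicClosure k,
      (∀ σ : AlgebraicClosure k ≃ₐ[k] AlgebraicClosure k,
        σ (ξ + (l : AlgebraicClosure k) * ζ) = ξ + (l : AlgebraicClosure k) * ζ → σ z = z) →
      z ∈ IntermediateField.adjoin k {ξ + (l : AlgebraicClosure k) * ζ} := by
    intro z hz
    rw [← InfiniteGalois.fixedField_fixingSubgroup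
      (IntermediateField.adjoin k {ξ + (l : AlgebraicClosure k) * ζ})]
    rw [IntermediateField.mem_fixedField_iff]
    intro σ hσ
    refine hz σ ?_
    rw [IntermediateField.mem_fixingSubgroup_iff] at hσ
    exact hσ _ (IntermediateField.mem_adjoin_simple_self k _)
  refine ⟨l, ?_, hin ξ fun σ hσ => (hfix σ hσ).1, hin ζ fun σ hσ => (hfix σ hσ).2, ?_⟩
  · have h1 : l ≤ f.natDegree * Φ.natDegree := hl'.le.trans hZc
    refine h1.trans ?_
    exact Nat.le_self_pow (by norm_num) _
  · intro c hc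
    set θ : AlgebraicClosure k := ξ + (l : AlgebraicClosure k) * ζ with hθ
    have hint : IsIntegral k θ := Algebra.IsIntegral.isIntegral θ
    have hcm : minpoly k θ = minpoly k c :=
      minpoly.eq_of_irreducible_of_monic (minpoly.irreducible hint) hc (minpoly.monic hint)
    obtain ⟨σ, hσ⟩ := (isConjRoot_iff_exists_algEquiv (K := k) (L := AlgebraicClosure k)
      (x := c) (y := θ)).1 hcm.symm
    refine ⟨σ ξ, σ ζ, ?_, ?_, ?_⟩
    · have h1 : σ (aeval ξ f) = aeval (σ ξ) f :=
        (aeval_algHom_apply (σ : AlgebraicClosure k →ₐ[k] AlgebraicClosure k) ξ f).symm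
      rw [← h1, hξ, map_zero]
    · rw [ev2_alg34, hζ, map_zero]
    · have h2 : σ θ = c := hσ
      rw [← h2, hθ, map_add, map_mul, map_natCast]

end Pool.Agent.SE
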