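import Pool.Agent.Helper10.SE.Defs7

/-!
# Project SE: cofactors, fractions and lifts for polynomials in two variables
-/

universe u

set_option linter.unusedVariables false

namespace Pool.Agent.SE

open Polynomial

/-- `ev2` is integral over the polynomials in `x`. -/
private theorem int34 {k K : Type u} [Field k] [Field K] [Algebra k K] {x z : K}
    {Φ : k[X][X]} (hm : Φ.Monic) (h0 : ev2 x z Φ = 0) (G : k[X][X]) :
    ∃ p : k[X][X], p.Monic ∧
      eval₂ (aeval x : k[X] →ₐ[k] K).toRingHom (ev2 x z G) p = 0 := by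
  let iA : Algebra k[X] K := (aeval x : k[X] →ₐ[k] K).toRingHom.toAlgebra
  have hz : IsIntegral k[X] z := ⟨Φ, hm, h0⟩
  have hG : IsIntegral k[X] (ev2 x z G) := by
    have h1 : ev2 x z G = aeval z G := rfl
    rw [h1]
    exact IsIntegral.of_mem_of_fg (Algebra.adjoin k[X] {z}) hz.fg_adjoin_singleton _
      (aeval_mem_adjoin_singleton _ _)
  exact hG

/-- A nonzero value of a polynomial in `x`, `z` divides a nonzero polynomial in `x`. -/
theorem exists_cofactor {k K : Type u} [Field k] [Field K] [Algebra k K] {x z : K}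
    (hx : Transcendental k x) {Φ : k[X][X]} (hm : Φ.Monic) (h0 : ev2 x z Φ = 0)
    {G : k[X][X]} (hG : ev2 x z G ≠ 0) :
    ∃ (G' : k[X][X]) (N : k[X]), N ≠ 0 ∧ ev2 x z G * ev2 x z G' = aeval x N := by
  obtain ⟨p, hp, hp0⟩ := int34 hm h0 G
  -- remove the power of the variable
  obtain ⟨q, hq⟩ : X ^ p.natTrailingDegree ∣ p :=
    X_pow_dvd_iff.2 fun i hi => coeff_eq_zero_of_lt_natTrailingDegree hi
  have hq0 : q.coeff 0 ≠ 0 := by
    have h1 : p.coeff p.natTrailingDegree ≠ 0 := trailingCoeff_nonzero_iff_nonzero.2 hp.ne_zero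
    have h2 : p.coeff p.natTrailingDegree = q.coeff 0 := by
      have h3 := coeff_X_pow_mul q p.natTrailingDegree 0
      rwa [zero_add, ← hq] at h3
    rwa [h2] at h1
  have hqe : eval₂ (aeval x : k[X] →ₐ[k] K).toRingHom (ev2 x z G) q = 0 := by
    rw [hq, eval₂_mul, eval₂_X_pow] at hp0
    exact (mul_eq_zero.1 hp0).resolve_left (pow_ne_zero _ hG)
  rw [← divX_mul_X_add q, eval₂_add, eval₂_mul, eval₂_X, eval₂_C] at hqe
  -- the value of `q.divX` is a value of a polynomial in `x`, `z`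
  refine ⟨-(eval₂ (C : k[X] →+* k[X][X]) G q.divX), q.coeff 0, hq0, ?_⟩
  have h1 : ev2 x z (eval₂ (C : k[X] →+* k[X][X]) G q.divX) =
      eval₂ (aeval x : k[X] →ₐ[k] K).toRingHom (ev2 x z G) q.divX := by
    rw [hom_eval₂]
    congr 1
    ext a
    · simp [ev2]
    · simp [ev2]
  rw [map_neg, h1]
  have h2 : (aeval x : k[X] →ₐ[k] K).toRingHom (q.coeff 0) = aeval x (q.coeff 0) := rfl
  rw [h2] at hqe
  linear_combination -hqe

/-- Every element of `k(x, z)` is a fraction with denominator in `k[x]`. -/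
theorem exists_frac2 {k K : Type u} [Field k] [Field K] [Algebra k K] {x z : K}
    (hx : Transcendental k x) {Φ : k[X][X]} (hm : Φ.Monic) (h0 : ev2 x z Φ = 0)
    (hgen : IntermediateField.adjoin k {x, z} = ⊤) (y : K) :
    ∃ (G : k[X][X]) (D : k[X]), D ≠ 0 ∧ y * aeval x D = ev2 x z G := by
  have hev : ∀ p : k[X], aeval x p = ev2 x z (C p) := fun p => by simp [ev2]
  have haev : ∀ {p : k[X]}, p ≠ 0 → aeval x p ≠ 0 := fun {p} hp h =>
    hp ((transcendental_iff.1 hx) p h)
  have hy : y ∈ IntermediateField.adjoin k ({x, z} : Set K) := by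
    rw [hgen]
    trivial
  induction hy using IntermediateField.adjoin_induction with
  | mem y hy =>
    rcases hy with rfl | hy
    · exact ⟨C X, 1, one_ne_zero, by simp [ev2]⟩
    · rw [Set.mem_singleton_iff] at hy
      subst hy
      exact ⟨X, 1, one_ne_zero, by simp [ev2]⟩
  | algebraMap a => exact ⟨C (C a), 1, one_ne_zero, by simp [ev2]⟩
  | add y y' _ _ h h' =>
    obtain ⟨G, D, hD, e⟩ := h
    obtain ⟨G', D', hD', e'⟩ := h'
    refine ⟨G * C D' + G' * C D, D * D', mul_ne_zero hD hD', ?_⟩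
    rw [map_add, map_mul, map_mul, map_mul, ← hev, ← hev, ← e, ← e']
    ring
  | inv y _ h =>
    obtain ⟨G, D, hD, e⟩ := h
    rcases eq_or_ne y 0 with rfl | hy0
    · exact ⟨0, 1, one_ne_zero, by simp⟩
    · have hG : ev2 x z G ≠ 0 := by
        rw [← e]
        exact mul_ne_zero hy0 (haev hD)
      obtain ⟨G', N, hN, e'⟩ := exists_cofactor hx hm h0 hG
      refine ⟨G' * C D, N, hN, ?_⟩
      rw [map_mul, ← hev, ← e', ← e]
      field_simp
  | mul y y' _ _ h h' =>
    obtain ⟨G, D, hD, e⟩ := h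
    obtain ⟨G', D', hD', e'⟩ := h'
    refine ⟨G * G', D * D', mul_ne_zero hD hD', ?_⟩
    rw [map_mul, map_mul, ← e, ← e']
    ring

/-- Lift of a polynomial with coefficients in a subring. -/
theorem exists_lift1 {L : Type u} [Field L] (W : Subring L) {N₁ : L[X]}
    (h : ∀ i, N₁.coeff i ∈ W) : ∃ NR : W[X], NR.map W.subtype = N₁ := by
  refine ⟨N₁.toSubring W ?_, N₁.map_toSubring W ?_⟩ <;>
  · intro a ha
    obtain ⟨i, -, rfl⟩ := mem_coeffs_iff.1 ha
    exact h i

/-- Lift of a polynomial in two variables with coefficients in a subring. -/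
theorem exists_lift2 {k : Type u} [Field k] {L : Type u} [Field L] [Algebra k L] (W : Subring L)
    {G : k[X][X]} (h : ∀ i j, algebraMap k L ((G.coeff i).coeff j) ∈ W) :
    ∃ GR : W[X][X], GR.map (mapRingHom W.subtype) = G.map (mapRingHom (algebraMap k L)) := by
  rw [← mem_lifts, lifts_iff_coeff_lifts]
  intro i
  obtain ⟨g, hg⟩ := exists_lift1 W (N₁ := (G.coeff i).map (algebraMap k L)) fun j => by
    rw [coeff_map]
    exact h i j
  refine ⟨g, ?_⟩
  rw [coeff_map, coe_mapRingHom, coe_mapRingHom, hg]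

end Pool.Agent.SE
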