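import Pool.Agent.Helper10.TWT.A6

/-!
# Project SE, block T1: the valuation ring of germs
-/

universe u v w

namespace Pool.Agent.SE

open Polynomial Pool.Agent.LT Pool.Agent.Helper37.UL UL Pool.Agent.OPN Pool.Agent.OPG Pool.Agent.TWT _root_.TW

section germring

variable {C : Type u} [Field C] {J : Type u} {U : Ultrafilter J} {S : Type u} [Field S]
  {π : (J → C) →+* S} (h : UP U π) {W : J → ValuationSubring C}

include h

variable (W) in
/-- the valuation ring of the germs with values in the valuation rings `W j` -/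
theorem exists_WS34 : ∃ WS : ValuationSubring S,
    ∀ f : J → C, π f ∈ WS ↔ ∀ᶠ j in (U : Filter J), f j ∈ W j := by
  classical
  refine ⟨{ carrier := {s | ∃ f : J → C, (∀ᶠ j in (U : Filter J), f j ∈ W j) ∧ π f = s}
            mul_mem' := ?_, one_mem' := ?_, add_mem' := ?_, zero_mem' := ?_, neg_mem' := ?_,
            mem_or_inv_mem' := ?_ }, fun f => ⟨?_, fun hf => ⟨f, hf, rfl⟩⟩⟩
  · rintro _ _ ⟨f, hf, rfl⟩ ⟨g, hg, rfl⟩
    refine ⟨f * g, ?_, map_mul _ _ _⟩
    filter_upwards [hf, hg] with j h1 h2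
    exact mul_mem h1 h2
  · exact ⟨1, Filter.Eventually.of_forall fun j => one_mem (W j), map_one _⟩
  · rintro _ _ ⟨f, hf, rfl⟩ ⟨g, hg, rfl⟩
    refine ⟨f + g, ?_, map_add _ _ _⟩
    filter_upwards [hf, hg] with j h1 h2
    exact add_mem h1 h2
  · exact ⟨0, Filter.Eventually.of_forall fun j => zero_mem (W j), map_zero _⟩
  · rintro _ ⟨f, hf, rfl⟩
    refine ⟨-f, ?_, map_neg _ _⟩
    filter_upwards [hf] with j h1
    exact neg_mem h1
  · intro s
    obtain ⟨f, rfl⟩ := h.surj s
    have h1 : (∀ᶠ j in (U : Filter J), f j ∈ W j) ∨ ∀ᶠ j in (U : Filter J), f⁻¹ j ∈ W j := by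
      rw [← Ultrafilter.eventually_or]
      exact Filter.Eventually.of_forall fun j => (W j).mem_or_inv_mem (f j)
    rcases h1 with h1 | h1
    · exact Or.inl ⟨f, h1, rfl⟩
    · exact Or.inr ⟨f⁻¹, h1, h.map_inv f⟩
  · rintro ⟨g, hg, hgf⟩
    filter_upwards [hg, (h.eq_iff _ _).1 hgf] with j h1 h2
    rw [← h2]
    exact h1

variable {WS : ValuationSubring S} (hWS : ∀ f : J → C, π f ∈ WS ↔ ∀ᶠ j in (U : Filter J), f j ∈ W j)

include hWS

theorem WS_nonunits34 (f : J → C) :
    π f ∈ WS.nonunits ↔ ∀ᶠ j in (U : Filter J), (W j).valuation (f j) < 1 := by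
  rw [ValuationSubring.mem_nonunits_iff_or, h.eq0, ← h.map_inv, hWS, ← Ultrafilter.eventually_not,
    ← Ultrafilter.eventually_or]
  refine Filter.eventually_congr (Filter.Eventually.of_forall fun j => ?_)
  rw [← ValuationSubring.mem_nonunits_iff, ValuationSubring.mem_nonunits_iff_or]
  rfl

theorem WS_val34 (f : J → C) :
    WS.valuation (π f) < 1 ↔ ∀ᶠ j in (U : Filter J), (W j).valuation (f j) < 1 := by
  rw [← ValuationSubring.mem_nonunits_iff]
  exact WS_nonunits34 h hWS f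

/-- units -/
theorem ev_unit34 {f : J → C} (h1 : π f ∈ WS) (h2 : (π f)⁻¹ ∈ WS) (h0 : π f ≠ 0) :
    ∀ᶠ j in (U : Filter J), (W j).valuation (f j) = 1 := by
  rw [← h.map_inv, hWS] at h2
  filter_upwards [(hWS f).1 h1, h2, (h.ne0 f).1 h0] with j h1 h2 h3
  have h4 := ((W j).valuation_le_one_iff _).2 h1
  have h5 := ((W j).valuation_le_one_iff _).2 h2
  have h6 : (W j).valuation (f j) ≠ 0 := (Valuation.ne_zero_iff _).2 h3
  rw [Pi.inv_apply, map_inv₀] at h5
  exact le_antisymm h4 ((inv_le_one₀ (zero_lt_iff.2 h6)).1 h5)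

end germring

section main

variable {E C : Type u} [Field E] [IsAlgClosed E] [CharZero E] [Field C] [IsAlgClosed C] [Algebra E C]
  {T : C} {m : ℕ} {J : Type u}
  {U : Ultrafilter J} {S : Type u} [Field S] {π : (J → C) →+* S} (h : UP U π)
  {a : J → Fin (m + 1) → E} {A' : Subfield S} (hA' : A' ≤ h.gsub (algebraMap E C).fieldRange)
  (hx : AlgebraicIndependent A' (xg π fun j e => algebraMap E C (a j e)))

omit [CharZero E] [IsAlgClosed C] in
/-- the germs of constants are algebraically closed -/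
theorem gsub_acl34 {z : S} (hz : IsAlgebraic (h.gsub (algebraMap E C).fieldRange) z) :
    z ∈ h.gsub (algebraMap E C).fieldRange := by
  refine h.gsub_algClosed (fun x hx => ?_) hz
  have h2 : IsAlgebraic E x := Pool.Agent.TD.isAlgebraic_range_iff.1 hx
  obtain ⟨e, he⟩ := minpoly.mem_range_of_degree_eq_one E x
    (IsAlgClosed.degree_eq_one_of_irreducible E (minpoly.irreducible h2.isIntegral))
  exact ⟨e, he⟩

omit [CharZero E] [IsAlgClosed C] in
include hA' in
theorem acl_gsub34 : acl A' ≤ h.gsub (algebraMap E C).fieldRange := fun _ hz =>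
  gsub_acl34 h (isAlgebraic_mono hA' (mem_acl.1 hz))

variable {u : Fin (m + 1) → C} (hu0 : u 0 = 1) (hu : ∀ e, UP.cst π (u e) ∈ acl (ad A' {UP.cst π T}))
  {W : J → ValuationSubring C} (hE : ∀ j, ∀ e : E, algebraMap E C e ∈ W j)
  (hv : ∀ᶠ j in (U : Filter J), (W j).valuation (∑ e, algebraMap E C (a j e) * u e) < 1)
  {WS : ValuationSubring S} (hWS : ∀ f : J → C, π f ∈ WS ↔ ∀ᶠ j in (U : Filter J), f j ∈ W j)

omit [IsAlgClosed E] [CharZero E] [IsAlgClosed C] in
include h hE hWS in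
theorem gsub_WS34 {z : S} (hz : z ∈ h.gsub (algebraMap E C).fieldRange) : z ∈ WS := by
  obtain ⟨f, hf, rfl⟩ := hz
  rw [hWS]
  refine Filter.Eventually.of_forall fun j => ?_
  obtain ⟨e, he⟩ := hf j
  rw [← he]
  exact hE j e

include hA' h hx hu0 hu hE hv hWS

/-- every element which is algebraic over `A'(T)` is in the valuation ring of germs -/
theorem acl_WS34 {c : S} (hc : c ∈ acl (ad A' {UP.cst π T})) : c ∈ WS := by
  classical
  have hSa : IsAlgClosed S := h.isAlgClosed
  have hC0 : CharZero C := charZero_of_injective_algebraMap (algebraMap E C).injective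
  have hS0 : CharZero S := h.charZero
  by_contra hcon
  set x : Fin (m + 1) → S := xg π fun j e => algebraMap E C (a j e) with hxdef
  set Cs : Subfield S := acl (ad A' {UP.cst π T}) with hCs
  set K : Subfield S := acl A' with hK
  have hKCs : K ≤ Cs := acl_mono le_ad
  have hAK : A' ≤ K := le_acl
  have hTCs : UP.cst π T ∈ Cs := le_acl mem_adE
  let _ : Algebra K Cs := (Subfield.inclusion hKCs).toAlgebra
  have hcl : IsAlgClosed K := isAlgClosed_of fun z hz => acl_closed hz
  let Ws : ValuationSubring Cs := WS.comap Cs.subtype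
  have hWs : ∀ z : Cs, z ∈ Ws ↔ (z : S) ∈ WS := fun _ => Iff.rfl
  have hWt : Ws ≠ ⊤ := by
    intro h1
    apply hcon
    have h2 : (⟨c, hc⟩ : Cs) ∈ Ws := by rw [h1]; trivial
    exact h2
  have hKE : K ≤ h.gsub (algebraMap E C).fieldRange := acl_gsub34 h hA'
  have hEs : ∀ e : K, algebraMap K Cs e ∈ Ws := fun e => gsub_WS34 h hE hWS (hKE e.2)
  have hnu : ∀ y : Cs, y ∈ Ws.nonunits → WS.valuation (y : S) < 1 := by
    intro y hy
    rw [ValuationSubring.mem_nonunits_iff_or] at hy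
    rw [← ValuationSubring.mem_nonunits_iff, ValuationSubring.mem_nonunits_iff_or]
    rcases hy with rfl | hy
    · exact Or.inl rfl
    · exact Or.inr hy
  obtain ⟨t, hb⟩ := exists_base_of (E := K) (Ω := Cs) (T := ⟨UP.cst π T, hTCs⟩)
    (fun z => alg_sub hAK hTCs (fun _ => rfl) (mem_acl.1 z.2)) hWt hEs
  let us : Fin (m + 1) → Cs := fun e => ⟨UP.cst π (u e), hu e⟩
  have hus0 : us 0 = 1 := Subtype.ext (by
    change UP.cst π (u 0) = 1
    rw [hu0, map_one])
  obtain ⟨e0, he0⟩ := Finite.exists_max (fun e => Ws.valuation (us e))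
  have hM1 : 1 ≤ Ws.valuation (us e0) := by
    have h1 := he0 0
    rwa [hus0, map_one] at h1
  have hM0 : Ws.valuation (us e0) ≠ 0 := fun h => by
    rw [h] at hM1
    exact absurd hM1 (not_le.2 zero_lt_one)
  have hM : us e0 ≠ 0 := (Valuation.ne_zero_iff _).1 hM0
  have hxW : ∀ e, us e / us e0 ∈ Ws := by
    intro e
    rw [← Ws.valuation_le_one_iff, map_div₀]
    exact (div_le_one₀ (zero_lt_iff.2 hM0)).2 (he0 e)
  choose r hr using fun e => hb.exists_residue (hxW e)
  have hr0 : r e0 ≠ 0 := by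
    intro h0
    have h1 := hr e0
    rw [h0, map_zero, sub_zero, div_self hM, ValuationSubring.mem_nonunits_iff, map_one] at h1
    exact lt_irrefl _ h1
  -- the linear form does not vanish
  have h1 : ∑ e, (r e : S) * x e ≠ 0 :=
    lin_ne hx (fun e => mem_acl.1 (r e).2) (i₀ := e0) fun h0 => hr0 (Subtype.ext h0)
  have h2 : ∀ e, WS.valuation (UP.cst π (u e) / UP.cst π (u e0) - (r e : S)) < 1 := fun e =>
    hnu _ (hr e)
  have h3 : (UP.cst π (u e0))⁻¹ ∈ WS := by
    have h4 : (us e0)⁻¹ ∈ Ws := by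
      rw [← Ws.valuation_le_one_iff, map_inv₀]
      exact inv_le_one_of_one_le₀ hM1
    exact h4
  have hxE : ∀ e, x e ∈ h.gsub (algebraMap E C).fieldRange := fun e =>
    ⟨fun j => algebraMap E C (a j e), fun j => ⟨_, rfl⟩, rfl⟩
  have k4 : WS.valuation (∑ e, x e * UP.cst π (u e)) < 1 := by
    have h4 := sum_germ (π := π) (a := a) (fun e _ => u e)
    have h5 : ∑ e, x e * UP.cst π (u e) = π (fun j => ∑ e, algebraMap E C (a j e) * u e) := h4
    rw [h5]
    exact (WS_val34 h hWS _).2 hv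
  have k5 : WS.valuation (∑ e, x e * (UP.cst π (u e) / UP.cst π (u e0))) < 1 := by
    have k6 : ∑ e, x e * (UP.cst π (u e) / UP.cst π (u e0)) =
        (UP.cst π (u e0))⁻¹ * ∑ e, x e * UP.cst π (u e) := by
      rw [Finset.mul_sum]
      refine Finset.sum_congr rfl fun e _ => ?_
      rw [div_eq_mul_inv]
      ring
    rw [k6, map_mul]
    exact lt_of_le_of_lt (mul_le_of_le_one_left' ((WS.valuation_le_one_iff _).2 h3)) k4
  have k7 : WS.valuation (∑ e, x e * (UP.cst π (u e) / UP.cst π (u e0) - (r e : S))) < 1 := by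
    refine Valuation.map_sum_lt _ one_ne_zero fun e _ => ?_
    rw [map_mul]
    exact lt_of_le_of_lt (mul_le_of_le_one_left' ((WS.valuation_le_one_iff _).2
      (gsub_WS34 h hE hWS (hxE e)))) (h2 e)
  have k8 := Valuation.map_sub_lt _ k5 k7
  rw [← Finset.sum_sub_distrib] at k8
  have k9 : ∑ e, (x e * (UP.cst π (u e) / UP.cst π (u e0)) - x e *
      (UP.cst π (u e) / UP.cst π (u e0) - (r e : S))) = ∑ e, (r e : S) * x e := by
    refine Finset.sum_congr rfl fun e _ => ?_
    ring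
  rw [k9] at k8
  have h10 : ∑ e, (r e : S) * x e ∈ h.gsub (algebraMap E C).fieldRange :=
    sum_mem fun e _ => mul_mem (hKE (r e).2) (hxE e)
  have h11 : (∑ e, (r e : S) * x e)⁻¹ ∈ WS := gsub_WS34 h hE hWS (Subfield.inv_mem _ h10)
  have h12 := (WS.valuation_le_one_iff _).2 h11
  rw [map_inv₀, inv_le_one₀ (zero_lt_iff.2 ((Valuation.ne_zero_iff _).2 h1))] at h12
  exact absurd k8 (not_lt.2 h12)

/-- membership, for germs -/
theorem ev_mem34 {f : J → C} (hf : π f ∈ acl (ad A' {UP.cst π T})) :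
    ∀ᶠ j in (U : Filter J), f j ∈ W j :=
  (hWS f).1 (acl_WS34 h hA' hx hu0 hu hE hv hWS hf)

/-- nonzero elements are units -/
theorem ev_one34 {f : J → C} (hf : π f ∈ acl (ad A' {UP.cst π T})) (hf0 : π f ≠ 0) :
    ∀ᶠ j in (U : Filter J), (W j).valuation (f j) = 1 :=
  ev_unit34 h hWS (acl_WS34 h hA' hx hu0 hu hE hv hWS hf)
    (acl_WS34 h hA' hx hu0 hu hE hv hWS (Subfield.inv_mem _ hf)) hf0

end main

end Pool.Agent.SE
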