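import Pool.Agent.Helper34.SE.T1a

/-!
# Project SE, block T1: the generic specialisation of germs, residues outside the field of definition
-/

universe u v w

namespace Pool.Agent.SE

open Polynomial Pool.Agent.LT Pool.Agent.Helper37.UL UL Pool.Agent.OPN Pool.Agent.OPG Pool.Agent.TWT _root_.TW

section iota

variable {E C : Type u} [Field E] [Field C] [Algebra E C] {J : Type u}
  {U : Ultrafilter J} {S : Type u} [Field S] {π : (J → C) →+* S} (h : UP U π)
  {W : J → ValuationSubring C} (lam : ∀ j, W j →+* E) {Cg : Subfield S}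
  (hmem : ∀ f : J → C, π f ∈ Cg → ∀ᶠ j in (U : Filter J), f j ∈ W j)

include h hmem in
/-- the generic specialisation of germs -/
theorem exists_iotaG34 : ∃ ι : Cg →+* S, ∀ (f : J → C) (hf : π f ∈ Cg),
    ι ⟨π f, hf⟩ = π (fun j => lc W lam (f j) j) := by
  classical
  choose F hF using h.surj
  have hwd : ∀ f g : J → C, π f = π g → π (fun j => lc W lam (f j) j) = π (fun j => lc W lam (g j) j) := by
    intro f g hfg
    rw [h.eq_iff] at hfg ⊢
    filter_upwards [hfg] with j hj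
    rw [hj]
  have hF' : ∀ s : Cg, ∀ᶠ j in (U : Filter J), F s j ∈ W j := fun s => hmem _ (by
    rw [hF]
    exact s.2)
  have hone : π (fun j => lc W lam ((1 : J → C) j) j) = 1 := by
    rw [← map_one π, h.eq_iff]
    filter_upwards with j
    rw [Pi.one_apply, lc_of_mem (one_mem (W j))]
    have h1 : (⟨1, one_mem (W j)⟩ : W j) = 1 := rfl
    rw [h1, map_one, map_one]
  have hzero : π (fun j => lc W lam ((0 : J → C) j) j) = 0 := by
    rw [← map_zero π, h.eq_iff]
    filter_upwards with j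
    rw [Pi.zero_apply, lc_of_mem (zero_mem (W j))]
    have h1 : (⟨0, zero_mem (W j)⟩ : W j) = 0 := rfl
    rw [h1, map_zero, map_zero]
  have hmul : ∀ f g : J → C, (∀ᶠ j in (U : Filter J), f j ∈ W j) → (∀ᶠ j in (U : Filter J), g j ∈ W j) →
      π (fun j => lc W lam ((f * g) j) j) = π (fun j => lc W lam (f j) j) * π (fun j => lc W lam (g j) j) := by
    intro f g hf hg
    rw [← map_mul, h.eq_iff]
    filter_upwards [hf, hg] with j hc hd
    rw [Pi.mul_apply, Pi.mul_apply, lc_of_mem hc, lc_of_mem hd, lc_of_mem (mul_mem hc hd), ← map_mul, ← map_mul]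
    rfl
  have hadd : ∀ f g : J → C, (∀ᶠ j in (U : Filter J), f j ∈ W j) → (∀ᶠ j in (U : Filter J), g j ∈ W j) →
      π (fun j => lc W lam ((f + g) j) j) = π (fun j => lc W lam (f j) j) + π (fun j => lc W lam (g j) j) := by
    intro f g hf hg
    rw [← map_add, h.eq_iff]
    filter_upwards [hf, hg] with j hc hd
    rw [Pi.add_apply, Pi.add_apply, lc_of_mem hc, lc_of_mem hd, lc_of_mem (add_mem hc hd), ← map_add, ← map_add]
    rfl
  refine ⟨{ toFun := fun s => π (fun j => lc W lam (F s j) j), map_one' := ?_, map_mul' := ?_,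
            map_zero' := ?_, map_add' := ?_ }, fun f hf => ?_⟩
  · rw [← hone]
    exact hwd _ _ (by rw [hF, map_one]; rfl)
  · intro s t
    rw [← hmul _ _ (hF' s) (hF' t)]
    exact hwd _ _ (by rw [hF, map_mul, hF, hF]; rfl)
  · rw [← hzero]
    exact hwd _ _ (by rw [hF, map_zero]; rfl)
  · intro s t
    rw [← hadd _ _ (hF' s) (hF' t)]
    exact hwd _ _ (by rw [hF, map_add, hF, hF]; rfl)
  · exact hwd _ _ (hF _)

end iota

section main

variable {E C : Type u} [Field E] [IsAlgClosed E] [CharZero E] [Field C] [IsAlgClosed C] [Algebra E C]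
  {A : Subfield C} (hA : A ≤ (algebraMap E C).fieldRange) {T : C} {m : ℕ} {J : Type u}
  {U : Ultrafilter J} {S : Type u} [Field S] {π : (J → C) →+* S} (h : UP U π)
  {a : J → Fin (m + 1) → E} {A' : Subfield S} (hA' : A' ≤ h.gsub (algebraMap E C).fieldRange)
  (hAA' : A.map (UP.cst π) ≤ A')
  (hx : AlgebraicIndependent A' (xg π fun j e => algebraMap E C (a j e)))
  {u : Fin (m + 1) → C} (hu0 : u 0 = 1)
  {W : J → ValuationSubring C} (hE : ∀ j, ∀ e : E, algebraMap E C e ∈ W j)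
  {lam : ∀ j, W j →+* E}
  (hlam : ∀ j, ∀ (e : E) (he : algebraMap E C e ∈ W j), lam j ⟨_, he⟩ = e)
  (hlam0 : ∀ j, ∀ x : W j, lam j x = 0 ↔ (W j).valuation (x : C) < 1)
  (hv : ∀ᶠ j in (U : Filter J), (W j).valuation (∑ e, algebraMap E C (a j e) * u e) < 1)
  (hmemc : ∀ c ∈ acl (ad A {T}), ∀ᶠ j in (U : Filter J), c ∈ W j)
  (hmem : ∀ f : J → C, π f ∈ acl (ad A' {UP.cst π T}) → ∀ᶠ j in (U : Filter J), f j ∈ W j)
  {Fv : J → Subfield C} (hAF : A' ≤ h.fsub Fv) (haFv : ∀ j e, algebraMap E C (a j e) ∈ Fv j)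
  (hwr : ∀ z ∈ h.fsub Fv, IsAlgebraic (gn A' (xg π fun j e => algebraMap E C (a j e))) z →
    z ∈ gn (acl A') (xg π fun j e => algebraMap E C (a j e)))
  {q : C} (hq : q ∈ acl (ad A {T})) (hu : ∀ e, u e ∈ ad A {T, q})

include hA h hA' hAA' hx hu0 hE hlam hlam0 hv hmemc hmem hAF haFv hwr hq hu in
/-- **Residues of germs outside the field of definition.** -/
theorem ev_notMemG34 {b : J → C} (hb : π b ∈ acl (ad A' {UP.cst π T}))
    (hbK : ∀ᶠ j in (U : Filter J), b j ∉ ad (Fv j) {T, q}) :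
    ∀ᶠ j in (U : Filter J), lc W lam (b j) j ∉ ad (Fv j) {lc W lam T j, lc W lam q j} := by
  classical
  by_contra hcon
  rw [← Ultrafilter.eventually_not] at hcon
  have hSa : IsAlgClosed S := h.isAlgClosed
  have hC0 : CharZero C := charZero_of_injective_algebraMap (algebraMap E C).injective
  have hS0 : CharZero S := h.charZero
  set x : Fin (m + 1) → S := xg π fun j e => algebraMap E C (a j e) with hxdef
  set D : Subfield S := h.fsub Fv with hD
  set AS : Subfield S := A.map (UP.cst π) with hAS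
  set Cs : Subfield C := acl (ad A {T}) with hCs
  set Cg : Subfield S := acl (ad A' {UP.cst π T}) with hCg
  have hTCs : T ∈ Cs := le_acl mem_adE
  have hTq : ad A {T, q} ≤ Cs := by
    rw [ad_pair]
    refine ad_le le_acl ?_
    intro z hz
    rw [Set.mem_singleton_iff.1 hz]
    exact hq
  have huC : ∀ e, u e ∈ Cs := fun e => hTq (hu e)
  -- the specialisations
  obtain ⟨ι, hι⟩ := exists_iotaS h hmemc (lam := lam)
  obtain ⟨ιG, hιG⟩ := exists_iotaG34 h lam hmem
  have hcstC : ∀ c : C, c ∈ Cs → UP.cst π c ∈ Cg := by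
    intro c hc
    have h1 : UP.cst π c ∈ acl (ad AS {UP.cst π T}) := by
      refine mem_acl.2 (alg_map' (UP.cst π) (fun y hy => ?_) (mem_acl.1 hc))
      rw [hAS, ← map_ad1]
      exact ⟨y, hy, rfl⟩
    exact acl_mono (ad_mono hAA' le_rfl) h1
  have hιι : ∀ (c : C) (hc : c ∈ Cs), ιG ⟨UP.cst π c, hcstC c hc⟩ = ι ⟨c, hc⟩ := by
    intro c hc
    rw [hι]
    exact hιG (fun _ => c) _
  -- constants
  have hconst : ∀ s : Cg, (s : S) ∈ h.gsub (algebraMap E C).fieldRange → ιG s = s := by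
    rintro ⟨s, hs⟩ ⟨f, hf, hfs⟩
    subst hfs
    rw [hιG, h.eq_iff]
    refine Filter.Eventually.of_forall fun j => ?_
    obtain ⟨e, he⟩ := hf j
    have h1 : ∀ (z : C) (hz : z ∈ W j), z = algebraMap E C e → lam j ⟨z, hz⟩ = e := by
      intro z hz hze
      subst hze
      exact hlam j _ _
    have h2 : f j ∈ W j := by
      rw [← he]
      exact hE j e
    rw [lc_of_mem h2, h1 _ h2 he.symm, he]
  obtain ⟨τ, hτ⟩ : ∃ τ : S, τ = ι ⟨T, hTCs⟩ := ⟨_, rfl⟩
  obtain ⟨l, hl⟩ : ∃ l : S, l = ι ⟨q, hq⟩ := ⟨_, rfl⟩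
  have hτ' : τ = π (lc W lam T) := by rw [hτ, hι]
  have hl' : l = π (lc W lam q) := by rw [hl, hι]
  have hTCg : UP.cst π T ∈ Cg := hcstC T hTCs
  have hqCg : UP.cst π q ∈ Cg := hcstC q hq
  have hτG : ιG ⟨UP.cst π T, hTCg⟩ = τ := by rw [hτ]; exact hιι T hTCs
  have hlG : ιG ⟨UP.cst π q, hqCg⟩ = l := by rw [hl]; exact hιι q hq
  have hA'Cg : A' ≤ Cg := le_ad.trans le_acl
  -- images
  have hadG : ∀ X : Set S, ad A' X ≤ Cg → ∀ y : Cg, (y : S) ∈ ad A' X →
      ιG y ∈ ad A' (ιG '' {z | (z : S) ∈ X}) := by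
    intro X hX y hy
    have h1 : ad A' X ≤ ((ad A' (ιG '' {z | (z : S) ∈ X})).comap ιG).map Cg.subtype := by
      refine ad_le ?_ ?_
      · intro z hz
        refine ⟨⟨z, hX (le_ad hz)⟩, ?_, rfl⟩
        change ιG (⟨z, hX (le_ad hz)⟩ : Cg) ∈ ad A' (ιG '' {z | (z : S) ∈ X})
        rw [hconst _ (hA' hz)]
        exact le_ad hz
      · intro z hz
        refine ⟨⟨z, hX (mem_ad hz)⟩, ?_, rfl⟩
        exact mem_ad ⟨⟨z, hX (mem_ad hz)⟩, hz, rfl⟩
    obtain ⟨y', hy', h2⟩ := h1 hy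
    have h3 : y' = y := Subtype.ext h2
    rw [← h3]
    exact hy'
  have hadT : ad A' {UP.cst π T} ≤ Cg := le_acl
  have halG : ∀ z : Cg, IsAlgebraic (ad A' {τ}) (ιG z) := by
    intro z
    refine alg_map' ιG (fun y hy => ?_) (alg_comap hadT (mem_acl.1 z.2))
    refine (ad_mono le_rfl ?_) (hadG _ hadT y hy)
    rintro _ ⟨w, hw, rfl⟩
    rw [Set.mem_singleton_iff, ← hτG]
    congr 1
    exact Subtype.ext hw
  have hal : ∀ z : Cs, IsAlgebraic (ad A' {τ}) (ι z) := fun z => by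
    have h1 := halG ⟨UP.cst π z, hcstC z z.2⟩
    rw [hιι z z.2] at h1
    exact h1
  have hrel : x 0 + ∑ i : Fin m, x i.succ * ι ⟨u i.succ, huC _⟩ = 0 :=
    rel_S h hu0 hE hlam hlam0 hmemc hι hv huC
  have hxD : ∀ e, x e ∈ D := fun e => ⟨fun j => algebraMap E C (a j e), fun j => haFv j e, rfl⟩
  have hAlS : ∀ z : Cs, (z : C) ∈ ad A {T, q} → ι z ∈ ad A' {τ, l} := by
    intro z hz
    have h1 := iota_ad hA h hE hlam hι hTq z hz
    refine (ad_mono hAA' ?_) h1
    rintro _ ⟨y, hy, rfl⟩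
    rcases hy with hy | hy
    · left
      rw [hτ]
      congr 1
      exact Subtype.ext hy
    · right
      rw [Set.mem_singleton_iff, hl]
      congr 1
      exact Subtype.ext (Set.mem_singleton_iff.1 hy)
  -- algebraicity
  have hτx : IsAlgebraic (gn A' x) τ := by
    have h1 := _root_.TW.tau_alg_W hx hrel (τ := τ) fun i => alg_adjoin_iff.2 (hal _)
    rw [← adjoin_toSubfield_gn]
    exact h1
  have hgD : gn A' x ≤ D := gn_le hAF hxD
  -- the residue of `b`
  have h1 : ιG ⟨π b, hb⟩ ∈ ad D {τ, l} := by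
    rw [hτ', hl']
    refine fsub_ad2 h ?_ ?_ ?_
    · rw [← hτ']
      exact isAlgebraic_mono hgD hτx
    · rw [← hτ', ← hl', hl]
      exact isAlgebraic_mono (ad_mono hAF le_rfl) (hal _)
    · rw [hιG, h.coe_mem_fsub]
      filter_upwards [hcon] with j hj
      exact not_not.1 hj
  have h2 : ιG ⟨π b, hb⟩ ∈ ad (D ⊓ acl A') {τ, l} := by
    refine desc3 hx hAF hxD hwr (fun i => hAlS _ (hu _)) ?_ hrel (halG _) h1
    rw [hl]
    exact hal _
  -- back
  let D₀ : Subfield S := D ⊓ acl A'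
  have hD₀Cg : D₀ ≤ Cg := inf_le_right.trans (acl_mono le_ad)
  have hD₀2 : ad D₀ {UP.cst π T, UP.cst π q} ≤ Cg := by
    refine ad_le hD₀Cg ?_
    rintro z (hz | hz)
    · rw [hz]
      exact hTCg
    · rw [Set.mem_singleton_iff.1 hz]
      exact hqCg
  have h3 : ad (D ⊓ acl A') {τ, l} ≤
      ((ad D₀ {UP.cst π T, UP.cst π q}).comap Cg.subtype).map ιG := by
    refine ad_le ?_ ?_
    · intro z hz
      have hz0 : z ∈ D₀ := hz
      refine ⟨⟨z, hD₀Cg hz0⟩, ?_, ?_⟩
      · change z ∈ ad D₀ {UP.cst π T, UP.cst π q}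
        exact le_ad hz0
      · exact hconst _ (acl_gsub34 h hA' hz.2)
    · rintro z (hz | hz)
      · refine ⟨⟨UP.cst π T, hTCg⟩, ?_, ?_⟩
        · change UP.cst π T ∈ ad D₀ {UP.cst π T, UP.cst π q}
          exact mem_ad (Or.inl rfl)
        · rw [hz, hτG]
      · refine ⟨⟨UP.cst π q, hqCg⟩, ?_, ?_⟩
        · change UP.cst π q ∈ ad D₀ {UP.cst π T, UP.cst π q}
          exact mem_ad (Or.inr rfl)
        · rw [Set.mem_singleton_iff.1 hz, hlG]
  obtain ⟨y, hy, hyb⟩ := h3 h2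
  have h4 : y = ⟨π b, hb⟩ := ιG.injective hyb
  have h5 : π b ∈ ad D₀ {UP.cst π T, UP.cst π q} := by
    rw [h4] at hy
    exact hy
  have h6 : ad D₀ {UP.cst π T, UP.cst π q} ≤ h.fsub fun j => ad (Fv j) {T, q} := by
    refine ad_le ?_ ?_
    · rintro w ⟨⟨f, hf, rfl⟩, -⟩
      exact ⟨f, fun j => le_ad (hf j), rfl⟩
    · rintro w (hw | hw)
      · rw [hw]
        exact h.const_mem_fsub fun j => mem_ad (Or.inl rfl)
      · rw [Set.mem_singleton_iff.1 hw]
        exact h.const_mem_fsub fun j => mem_ad (Or.inr rfl)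
  have h7 := (h.coe_mem_fsub (X := fun j => ad (Fv j) {T, q}) b).1 (h6 h5)
  obtain ⟨j, hj1, hj2⟩ := (h7.and hbK).exists
  exact hj2 hj1

end main

end Pool.Agent.SE
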