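import Pool.Agent.Helper34.SE.T1b

/-!
# Project SE, block T2: lemmas on germs
-/

universe u v w

namespace Pool.Agent.SE

open Polynomial Pool.Agent.LT Pool.Agent.Helper37.UL UL Pool.Agent.OPN Pool.Agent.OPG Pool.Agent.TWT _root_.TW

/-- **(G1)** linear forms in disjoint sets of independent elements are independent -/
theorem indep_lin34 {S : Type u} [Field S] {L : Subfield S} {N m : ℕ} {x : Fin N × Fin (m + 2) → S}
    (hx : AlgebraicIndependent L x) {s : Fin (m + 2) → S} (hs : ∀ e, s e ∈ L) (hs0 : s 0 ≠ 0) :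
    AlgebraicIndependent L (fun q : Fin N => ∑ e, x (q, e) * s e) := by
  classical
  let sL : Fin (m + 2) → L := fun e => ⟨s e, hs e⟩
  have hsL0 : sL 0 ≠ 0 := fun h0 => hs0 (congrArg Subtype.val h0)
  let Φ : MvPolynomial (Fin N) L →ₐ[L] MvPolynomial (Fin N × Fin (m + 2)) L :=
    MvPolynomial.aeval fun q => ∑ e, MvPolynomial.X (q, e) * MvPolynomial.C (sL e)
  let Ψ : MvPolynomial (Fin N × Fin (m + 2)) L →ₐ[L] MvPolynomial (Fin N) L :=
    MvPolynomial.aeval fun qe => if qe.2 = 0 then MvPolynomial.X qe.1 * MvPolynomial.C (sL 0)⁻¹ else 0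
  have h1 : ∀ p, Ψ (Φ p) = p := by
    intro p
    have h2 : (Ψ.comp Φ) = AlgHom.id L _ := by
      refine MvPolynomial.algHom_ext fun q => ?_
      change Ψ (Φ (MvPolynomial.X q)) = MvPolynomial.X q
      simp only [Φ, MvPolynomial.aeval_X, map_sum, map_mul]
      rw [Finset.sum_eq_single 0]
      · simp only [Ψ, MvPolynomial.aeval_X, MvPolynomial.aeval_C, if_true]
        rw [mul_assoc, MvPolynomial.algebraMap_eq, ← MvPolynomial.C_mul, inv_mul_cancel₀ hsL0,
          MvPolynomial.C_1, mul_one]
      · intro e _ he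
        simp only [Ψ, MvPolynomial.aeval_X]
        rw [if_neg he, zero_mul]
      · intro h3
        exact absurd (Finset.mem_univ _) h3
    exact congrArg (fun f : MvPolynomial (Fin N) L →ₐ[L] MvPolynomial (Fin N) L => f p) h2
  have h3 : ∀ p : MvPolynomial (Fin N) L,
      MvPolynomial.aeval (fun q : Fin N => ∑ e, x (q, e) * s e) p = MvPolynomial.aeval x (Φ p) := by
    intro p
    have h4 : MvPolynomial.aeval (R := L) (fun q : Fin N => ∑ e, x (q, e) * s e) =
        (MvPolynomial.aeval x).comp Φ := by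
      refine MvPolynomial.algHom_ext fun q => ?_
      change _ = MvPolynomial.aeval x (Φ (MvPolynomial.X q))
      simp only [Φ, MvPolynomial.aeval_X, map_sum, map_mul, MvPolynomial.aeval_C]
      rfl
    rw [h4]
    rfl
  intro p p' hpp
  have h5 : MvPolynomial.aeval x (Φ p) = MvPolynomial.aeval x (Φ p') := by
    rw [← h3, ← h3]
    exact hpp
  have h6 := hx h5
  rw [← h1 p, ← h1 p', h6]

/-- **(G2)** independence over the field generated by a transcendental element -/
theorem indep_adT34 {S : Type u} [Field S] {A : Subfield S} {I : Type*} {x : I → S}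
    (hx : AlgebraicIndependent A x) {τ : S} (hτ : Transcendental (gn A x) τ) :
    AlgebraicIndependent (acl (ad A {τ})) x := by
  have h1 : AlgebraicIndependent A (Sum.elim (fun _ : Unit => τ) x) := by
    rw [indep_sum_iff]
    refine ⟨hx, ?_⟩
    rw [algebraicIndependent_unique_type_iff]
    exact hτ
  have h2 : AlgebraicIndependent A (Sum.elim x (fun _ : Unit => τ)) := by
    have h3 := h1.comp Sum.swap Sum.swap_leftInverse.injective
    convert h3 using 1
    funext i
    rcases i with i | i <;> rfl
  have h3 := (indep_sum_iff.1 h2).2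
  have h4 : gn A (fun _ : Unit => τ) = ad A {τ} := by
    unfold gn ad
    rw [Set.range_const]
  rw [h4] at h3
  exact indep_acl h3

/-- **(G3)** values of nonzero polynomials at independent elements -/
theorem evc_ne34 {k₀ S : Type*} [Field k₀] [Field S] {L : Subfield S} {N : ℕ} (σ : k₀ →+* S)
    (hσ : ∀ a, σ a ∈ L) {c : Fin N → S} (hc : AlgebraicIndependent L c)
    {h : MvPolynomial (Fin N) k₀} (h0 : h ≠ 0) : MvPolynomial.eval₂ σ c h ≠ 0 := by
  let σL : k₀ →+* L := σ.codRestrict L.toSubring hσ
  intro h1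
  apply h0
  have h2 : MvPolynomial.aeval c (MvPolynomial.map σL h) = 0 := by
    rw [MvPolynomial.aeval_def, MvPolynomial.eval₂_map]
    exact h1
  have h3 : MvPolynomial.map σL h = 0 := hc (h2.trans (map_zero _).symm)
  exact (MvPolynomial.map_injective σL σL.injective) (h3.trans (map_zero _).symm)

/-- **(G4)** polynomials and germs -/
theorem evc_germ34 {k₀ C S : Type*} [Field k₀] [Field C] [Field S] {J : Type*} (π : (J → C) →+* S)
    (σ : k₀ →+* C) {N : ℕ} (c : Fin N → J → C) (h : MvPolynomial (Fin N) k₀) :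
    MvPolynomial.eval₂ ((UP.cst π).comp σ) (fun q => π (c q)) h =
      π (fun j => MvPolynomial.eval₂ σ (fun q => c q j) h) := by
  induction h using MvPolynomial.induction_on with
  | C a =>
    simp only [MvPolynomial.eval₂_C]
    rfl
  | add p q hp hq =>
    have h1 : (fun j => MvPolynomial.eval₂ σ (fun q => c q j) (p + q)) =
        (fun j => MvPolynomial.eval₂ σ (fun q => c q j) p) +
          fun j => MvPolynomial.eval₂ σ (fun q => c q j) q := by
      funext j
      rw [Pi.add_apply, MvPolynomial.eval₂_add]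
    rw [h1, map_add, MvPolynomial.eval₂_add, hp, hq]
  | mul_X p i hp =>
    have h1 : (fun j => MvPolynomial.eval₂ σ (fun q => c q j) (p * MvPolynomial.X i)) =
        (fun j => MvPolynomial.eval₂ σ (fun q => c q j) p) * c i := by
      funext j
      rw [Pi.mul_apply, MvPolynomial.eval₂_mul, MvPolynomial.eval₂_X]
    rw [h1, map_mul, MvPolynomial.eval₂_mul, MvPolynomial.eval₂_X, hp]

/-- **(G5)** roots of polynomials with generic coefficients are algebraic -/
theorem root_alg34 {k₀ C S : Type u} [Field k₀] [Field C] [Field S] {J : Type u}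
    {U : Ultrafilter J} {π : (J → C) →+* S} (h : UP U π) (σ : k₀ →+* C) {N : ℕ} (c : Fin N → J → C)
    {L M : Subfield S} (hσL : ∀ a, UP.cst π (σ a) ∈ L) (hc : AlgebraicIndependent L fun q => π (c q))
    (hσM : ∀ a, UP.cst π (σ a) ∈ M) (hcM : ∀ q, π (c q) ∈ M)
    {ff : (MvPolynomial (Fin N) k₀)[X]} (hff : ff ≠ 0) {ρ : J → C}
    (hρ : ∀ᶠ j in (U : Filter J),
      (ff.map (MvPolynomial.eval₂Hom σ fun q => c q j)).eval (ρ j) = 0) : π ρ ∈ acl M := by
  set τ : k₀ →+* S := (UP.cst π).comp σ with hτ
  have hmemM : ∀ p : MvPolynomial (Fin N) k₀, MvPolynomial.eval₂ τ (fun q => π (c q)) p ∈ M := by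
    intro p
    induction p using MvPolynomial.induction_on with
    | C a => rw [MvPolynomial.eval₂_C]; exact hσM a
    | add p q hp hq => rw [MvPolynomial.eval₂_add]; exact add_mem hp hq
    | mul_X p i hp => rw [MvPolynomial.eval₂_mul, MvPolynomial.eval₂_X]; exact mul_mem hp (hcM i)
  obtain ⟨i₀, hi₀⟩ : ∃ i, ff.coeff i ≠ 0 := by
    by_contra hcon
    push Not at hcon
    exact hff (Polynomial.ext fun i => by rw [hcon i, coeff_zero])
  refine mem_acl.2 (isAlgebraic_iff.2 ⟨max ff.natDegree i₀,
    fun i => MvPolynomial.eval₂ τ (fun q => π (c q)) (ff.coeff i), fun i => hmemM _, ?_, ?_⟩)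
  · intro h0
    have h1 := congrFun h0 ⟨i₀, Nat.lt_succ_of_le (le_max_right _ _)⟩
    exact evc_ne34 τ hσL hc hi₀ h1
  · have h1 : ∀ i : ℕ, MvPolynomial.eval₂ τ (fun q => π (c q)) (ff.coeff i) =
        π (fun j => MvPolynomial.eval₂ σ (fun q => c q j) (ff.coeff i)) := fun i => evc_germ34 π σ c _
    have h2 : ∑ i : Fin (max ff.natDegree i₀ + 1),
        MvPolynomial.eval₂ τ (fun q => π (c q)) (ff.coeff i) * π ρ ^ (i : ℕ) =
        π (fun j => (ff.map (MvPolynomial.eval₂Hom σ fun q => c q j)).eval (ρ j)) := by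
      have h3 : (fun j => (ff.map (MvPolynomial.eval₂Hom σ fun q => c q j)).eval (ρ j)) =
          ∑ i : Fin (max ff.natDegree i₀ + 1),
            (fun j => MvPolynomial.eval₂ σ (fun q => c q j) (ff.coeff i)) * ρ ^ (i : ℕ) := by
        funext j
        have h4 : (ff.map (MvPolynomial.eval₂Hom σ fun q => c q j)).natDegree <
            max ff.natDegree i₀ + 1 :=
          Nat.lt_succ_of_le (natDegree_map_le.trans (le_max_left _ _))
        rw [eval_eq_sum_range' h4, Finset.sum_range]
        simp only [Finset.sum_apply, Pi.mul_apply, Pi.pow_apply, coeff_map]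
        rfl
      rw [h3, map_sum]
      refine Finset.sum_congr rfl fun i _ => ?_
      rw [map_mul, map_pow, h1]
    rw [h2, h.eq0]
    exact hρ

/-- **(G6)** coefficients of products of linear factors -/
theorem coeff_prod_germ34 {C S : Type u} [Field C] [Field S] {J : Type u} {π : (J → C) →+* S}
    {M : Subfield S} {d : ℕ} {ρ : Fin d → J → C} (hρ : ∀ l, π (ρ l) ∈ M) (T' : Finset (Fin d))
    (i : ℕ) : π (fun j => (∏ l ∈ T', (X - Polynomial.C (ρ l j))).coeff i) ∈ M := by
  classical
  induction T' using Finset.induction_on generalizing i with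
  | empty =>
    have h1 : (fun j : J => (∏ l ∈ (∅ : Finset (Fin d)), (X - Polynomial.C (ρ l j))).coeff i) =
        fun _ => (1 : C[X]).coeff i := by
      funext j
      rw [Finset.prod_empty]
    rw [h1]
    by_cases hi : i = 0
    · subst hi
      simp only [coeff_one_zero]
      have h2 : π (fun _ => (1 : C)) = 1 := map_one π
      rw [h2]
      exact one_mem M
    · have h2 : (fun _ : J => (1 : C[X]).coeff i) = 0 := by
        funext j
        rw [coeff_one, if_neg hi]
        rfl
      rw [h2, map_zero]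
      exact zero_mem M
  | insert l T' hl ih =>
    have h1 : (fun j : J => (∏ l' ∈ insert l T', (X - Polynomial.C (ρ l' j))).coeff i) =
        (fun j => (X * ∏ l' ∈ T', (X - Polynomial.C (ρ l' j))).coeff i) -
          ρ l * fun j => (∏ l' ∈ T', (X - Polynomial.C (ρ l' j))).coeff i := by
      funext j
      rw [Finset.prod_insert hl, sub_mul, coeff_sub, coeff_C_mul]
      rfl
    rw [h1, map_sub, map_mul]
    refine sub_mem ?_ (mul_mem (hρ l) (ih i))
    rcases i with _ | i
    · have h2 : (fun j : J => (X * ∏ l' ∈ T', (X - Polynomial.C (ρ l' j))).coeff 0) = 0 := by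
        funext j
        rw [coeff_X_mul_zero]
        rfl
      rw [h2, map_zero]
      exact zero_mem M
    · have h2 : (fun j : J => (X * ∏ l' ∈ T', (X - Polynomial.C (ρ l' j))).coeff (i + 1)) =
          fun j => (∏ l' ∈ T', (X - Polynomial.C (ρ l' j))).coeff i := by
        funext j
        rw [coeff_X_mul]
      rw [h2]
      exact ih i

end Pool.Agent.SE
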